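import Mathlib

/-! Definitions for MP_41b5b1_co (toric g-vectors of simple polytopes). -/

namespace Pool.R142.TG

open Polynomial

/-! ### f-vectors of simplicial complexes -/

/-- `v k` is the number of faces of cardinality `k` (dimension `k - 1`) of some finite
simplicial complex (a nonempty down-closed family of finite sets). -/
def IsFVector (v : ℕ → ℕ) : Prop :=
  ∃ (n : ℕ) (K : Finset (Finset (Fin n))), ∅ ∈ K ∧ (∀ s ∈ K, ∀ t : Finset (Fin n), t ⊆ s → t ∈ K) ∧
    ∀ k, (K.filter (fun s => s.card = k)).card = v k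

/-- coefficientwise inequality -/
def CLe (p q : ℕ[X]) : Prop := ∀ k, p.coeff k ≤ q.coeff k

/-! ### path polynomials -/

/-- `P w k`: generating polynomial of the lattice paths from height `k` to height `0` that read
the word `w`; a letter `false` allows staying or going up, a letter `true` allows staying or
going down (weight `X`), heights stay nonnegative. -/
noncomputable def P : List Bool → ℕ → ℕ[X]
  | [], 0 => 1
  | [], _ + 1 => 0
  | false :: w, k => P w k + P w (k + 1)
  | true :: w, 0 => P w 0
  | true :: w, k + 1 => P w (k + 1) + X * P w k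

/-- paths from height 0 to height 0 -/
noncomputable def N (w : List Bool) : ℕ[X] := P w 0

/-- all words of length `r` -/
def words : ℕ → List (List Bool)
  | 0 => [[]]
  | r + 1 => (words r).map (fun w => false :: w) ++ (words r).map (fun w => true :: w)

/-- the word `(false true)^J` -/
def alt : ℕ → List Bool
  | 0 => []
  | J + 1 => false :: true :: alt J

/-- `R J r = ∑_{w ∈ {0,1}^r} N (w (01)^J)` -/
noncomputable def R (J r : ℕ) : ℕ[X] := ((words r).map (fun w => N (w ++ alt J))).sum

/-- `C (d+1) = C d + X * ∑_{i<d} C i * R 0 (d-1-i)`, `C 0 = 1`. -/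
noncomputable def C : ℕ → ℕ[X]
  | 0 => 1
  | d + 1 => C d + X * ∑ i : Fin d, C i.1 * R 0 (d - 1 - i.1)
decreasing_by all_goals omega

/-- the coefficient polynomials of the `γ`-expansion of the toric `g`-polynomial: `G j r` belongs
to `t^j (1+t)^r`. -/
noncomputable def G : ℕ → ℕ → ℕ[X]
  | 0, r => C r
  | j + 1, r => X * R j r

/-! ### posets -/

open Classical in
/-- Simple Eulerian posets.  `L` is a finite bounded poset with rank function `rk`
(`rk ⊥ = 0`, `rk` increases by one along covering relations), every interval `[a,b]` with `a < b`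
has as many elements of even rank as of odd rank, and for every element `v` of rank 1 the
interval `[v, ⊤]` is a Boolean lattice.  The face lattice of a simple polytope, with
`rk F = dim F + 1`, is such a poset. -/
structure IsSimpleEulerian (L : Type*) [PartialOrder L] [BoundedOrder L] [Fintype L]
    (rk : L → ℕ) : Prop where
  rk_bot : rk ⊥ = 0
  rk_covBy : ∀ a b : L, a ⋖ b → rk b = rk a + 1
  eulerian : ∀ a b : L, a < b → 
    ∑ c ∈ Finset.univ.filter (fun c : L => a ≤ c ∧ c ≤ b), (-1 : ℤ) ^ rk c = 0
  simple : ∀ v : L, rk v = 1 → ∃ n : ℕ, Nonempty (Set.Icc v (⊤ : L) ≃o Finset (Fin n))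

/-- truncation of a polynomial to degree at most `m` -/
noncomputable def trunc (m : ℕ) (p : ℤ[X]) : ℤ[X] :=
  ∑ i ∈ Finset.range (m + 1), Polynomial.C (p.coeff i) * X ^ i

open Classical in
/-- Stanley's toric `g`-polynomials of the lower intervals `[⊥, b]`:
`g(b) = 1` if `rk b = 0`, and otherwise, with
`f(b) = ∑_{a < b} g(a) (X - 1)^(rk b - 1 - rk a)` and `e = rk b - 1`, the polynomial `g(b)` is the
truncation of `(1 - X) f(b)` to degree at most `e / 2`. -/
noncomputable def toricG {L : Type*} [PartialOrder L] [Fintype L] (rk : L → ℕ) : L → ℤ[X] :=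
  (wellFounded_lt (α := L)).fix (fun b ih =>
    if rk b = 0 then 1 else
      trunc ((rk b - 1) / 2)
        ((1 - X) * ∑ a : {a : L // a < b}, ih a.1 a.2 * (X - 1) ^ (rk b - 1 - rk a.1)))

open Classical in
/-- number of elements of rank `i + 1` below `b`, i.e. the number of `i`-dimensional faces. -/
noncomputable def fnum {L : Type*} [PartialOrder L] [Fintype L] (rk : L → ℕ) (b : L) (i : ℕ) : ℕ :=
  (Finset.univ.filter (fun a : L => a ≤ b ∧ rk a = i + 1)).card

/-- `γ` is the `γ`-vector of the element `b` of dimension `e = rk b - 1`: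
`∑_i f_i (t-1)^i = ∑_j γ_j t^j (1+t)^(e-2j)`. -/
def IsGamma {L : Type*} [PartialOrder L] [Fintype L] (rk : L → ℕ) (b : L) (γ : ℕ → ℤ) : Prop :=
  ∑ i ∈ Finset.range (rk b - 1 + 1), Polynomial.C (fnum rk b i : ℤ) * (X - 1) ^ i =
    ∑ j ∈ Finset.range ((rk b - 1) / 2 + 1),
      Polynomial.C (γ j) * X ^ j * (1 + X) ^ (rk b - 1 - 2 * j)

end Pool.R142.TG
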