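import Pool.Agent.R142.TG.Stm

/-! Piece A (Kruskal-Katona closure) for MP_41b5b1_co; author helper539. -/

set_option autoImplicit false

namespace Pool.R142.TG.PA

open Finset Finset.Colex Polynomial
open scoped FinsetFamily

/-- complexes on an arbitrary finite type -/
theorem isF_of {α : Type*} [Fintype α] [DecidableEq α] (K : Finset (Finset α)) (v : ℕ → ℕ)
    (h0 : ∅ ∈ K) (hd : ∀ s ∈ K, ∀ t : Finset α, t ⊆ s → t ∈ K)
    (hc : ∀ k, (K.filter (fun s => s.card = k)).card = v k) : IsFVector v := by
  classical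
  let e : α ≃ Fin (Fintype.card α) := Fintype.equivFin α
  refine ⟨Fintype.card α, K.map (mapEmbedding e.toEmbedding).toEmbedding, ?_, ?_, ?_⟩
  · rw [Finset.mem_map]
    exact ⟨∅, h0, by simp⟩
  · intro s hs t hts
    rw [Finset.mem_map] at hs ⊢
    obtain ⟨s', hs', rfl⟩ := hs
    simp only [RelEmbedding.coe_toEmbedding, mapEmbedding_apply] at hts ⊢
    obtain ⟨t', ht', rfl⟩ := Finset.subset_map_iff.1 hts
    exact ⟨t', hd s' hs' t' ht', rfl⟩
  · intro k
    rw [Finset.filter_map, Finset.card_map, ← hc k]
    congr 1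
    ext s
    simp

/-- padding of the vertex set -/
theorem exists_fin {v : ℕ → ℕ} (h : IsFVector v) : ∃ n₀ : ℕ, ∀ N, n₀ ≤ N →
    ∃ K : Finset (Finset (Fin N)), ∅ ∈ K ∧ (∀ s ∈ K, ∀ t : Finset (Fin N), t ⊆ s → t ∈ K) ∧
      ∀ k, (K.filter (fun s => s.card = k)).card = v k := by
  classical
  obtain ⟨n, K, h0, hd, hc⟩ := h
  refine ⟨n, fun N hN => ⟨K.map (mapEmbedding (Fin.castLEEmb hN)).toEmbedding, ?_, ?_, ?_⟩⟩
  · rw [Finset.mem_map]
    exact ⟨∅, h0, by simp⟩
  · intro s hs t hts
    rw [Finset.mem_map] at hs ⊢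
    obtain ⟨s', hs', rfl⟩ := hs
    simp only [RelEmbedding.coe_toEmbedding, mapEmbedding_apply] at hts ⊢
    obtain ⟨t', ht', rfl⟩ := Finset.subset_map_iff.1 hts
    exact ⟨t', hd s' hs' t' ht', rfl⟩
  · intro k
    rw [Finset.filter_map, Finset.card_map, ← hc k]
    congr 1
    ext s
    simp

/-- initial segments of every size exist -/
theorem exists_seg (n r c : ℕ) (hc : c ≤ n.choose r) :
    ∃ 𝒞 : Finset (Finset (Fin n)), IsInitSeg 𝒞 r ∧ 𝒞.card = c := by
  classical
  induction c with
  | zero => exact ⟨∅, isInitSeg_empty, rfl⟩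
  | succ c ih =>
    obtain ⟨𝒞, h1, h2⟩ := ih (by omega)
    have hne : ((powersetCard r (univ : Finset (Fin n))) \ 𝒞).Nonempty := by
      rw [← Finset.card_pos]
      have h3 := Finset.le_card_sdiff 𝒞 (powersetCard r (univ : Finset (Fin n)))
      rw [card_powersetCard, card_univ, Fintype.card_fin] at h3
      omega
    obtain ⟨t, ht, hmin⟩ := Finset.exists_min_image _ (fun t => toColex t) hne
    rw [mem_sdiff, mem_powersetCard_univ] at ht
    refine ⟨insert t 𝒞, ⟨?_, ?_⟩, ?_⟩
    · intro s hs
      rw [mem_coe, mem_insert] at hs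
      rcases hs with rfl | hs
      · exact ht.1
      · exact h1.1 hs
    · intro s u hs hu
      rw [mem_insert] at hs ⊢
      rcases hs with rfl | hs
      · right
        by_contra hcon
        have h5 := hmin u (mem_sdiff.2 ⟨mem_powersetCard_univ.2 hu.2, hcon⟩)
        exact absurd hu.1 (not_lt.2 h5)
      · exact Or.inr (h1.2 hs hu)
    · rw [card_insert_of_notMem ht.2, h2]

/-- the compressed complex, level by level -/
theorem exists_comp {v : ℕ → ℕ} (N : ℕ) (K : Finset (Finset (Fin N))) (h0 : ∅ ∈ K)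
    (hd : ∀ s ∈ K, ∀ t : Finset (Fin N), t ⊆ s → t ∈ K)
    (hc : ∀ k, (K.filter (fun s => s.card = k)).card = v k) :
    ∃ 𝒞 : ℕ → Finset (Finset (Fin N)), (∀ k, IsInitSeg (𝒞 k) k) ∧ (∀ k, (𝒞 k).card = v k) ∧
      (∀ k, ∂ (𝒞 (k + 1)) ⊆ 𝒞 k) ∧ ∅ ∈ 𝒞 0 := by
  classical
  have hle : ∀ k, v k ≤ N.choose k := by
    intro k
    rw [← hc k]
    calc (K.filter (fun s => s.card = k)).card ≤ (powersetCard k (univ : Finset (Fin N))).card := by
          apply card_le_card
          intro s hs
          exact mem_powersetCard_univ.2 (mem_filter.1 hs).2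
      _ = _ := by rw [card_powersetCard, card_univ, Fintype.card_fin]
  choose 𝒞 h1 h2 using fun k => exists_seg N k (v k) (hle k)
  refine ⟨𝒞, h1, h2, ?_, ?_⟩
  · intro k
    have hs : IsInitSeg (∂ (𝒞 (k + 1))) k := by
      have := (h1 (k + 1)).shadow
      simpa using this
    have hkk : (∂ (𝒞 (k + 1))).card ≤ (∂ (K.filter (fun s => s.card = k + 1))).card := by
      apply kruskal_katona (r := k + 1)
      · intro s hs
        exact (mem_filter.1 (mem_coe.1 hs)).2
      · rw [h2, hc]
      · exact h1 _
    have hsub : ∂ (K.filter (fun s => s.card = k + 1)) ⊆ K.filter (fun s => s.card = k) := by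
      intro t ht
      rw [mem_shadow_iff] at ht
      obtain ⟨s, hs, a, ha, rfl⟩ := ht
      rw [mem_filter] at hs ⊢
      refine ⟨hd s hs.1 _ (erase_subset _ _), ?_⟩
      rw [card_erase_of_mem ha, hs.2]
      rfl
    have hcard : (∂ (𝒞 (k + 1))).card ≤ (𝒞 k).card := by
      rw [h2, ← hc k]
      exact hkk.trans (card_le_card hsub)
    rcases hs.total (h1 k) with h | h
    · exact h
    · rw [Finset.eq_of_subset_of_card_le h hcard]
  · have h3 : 0 < (𝒞 0).card := by
      rw [h2, ← hc 0, card_pos]
      exact ⟨∅, mem_filter.2 ⟨h0, rfl⟩⟩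
    obtain ⟨s, hs⟩ := card_pos.1 h3
    have := (h1 0).1 hs
    rw [card_eq_zero] at this
    rwa [this] at hs

/-- going down in the compressed complex -/
theorem down {N : ℕ} {𝒞 : ℕ → Finset (Finset (Fin N))} (h : ∀ k, ∂ (𝒞 (k + 1)) ⊆ 𝒞 k) :
    ∀ (m : ℕ) (s t : Finset (Fin N)), t ⊆ s → s.card = t.card + m → s ∈ 𝒞 s.card →
      t ∈ 𝒞 t.card := by
  classical
  intro m
  induction m with
  | zero =>
    intro s t hts hm hs
    have : t = s := Finset.eq_of_subset_of_card_le hts (by omega)
    rwa [this]
  | succ m ih =>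
    intro s t hts hm hs
    have hne : (s \ t).Nonempty := by
      rw [← card_pos]
      have := Finset.le_card_sdiff t s
      omega
    obtain ⟨a, ha⟩ := hne
    rw [mem_sdiff] at ha
    refine ih (s.erase a) t ?_ ?_ ?_
    · intro x hx
      refine mem_erase.2 ⟨?_, hts hx⟩
      rintro rfl
      exact ha.2 hx
    · rw [card_erase_of_mem ha.1]
      omega
    · have h1 : (s.erase a).card + 1 = s.card := card_erase_add_one ha.1
      rw [← h1] at hs
      exact h _ (mem_shadow_iff.2 ⟨s, hs, a, ha.1, rfl⟩)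

theorem coe_one : IsFVector (fun k => (1 : ℕ[X]).coeff k) := by
  refine ⟨0, {∅}, by simp, ?_, ?_⟩
  · intro s hs t hts
    rw [mem_singleton] at hs ⊢
    rw [hs] at hts
    exact subset_empty.1 hts
  · intro k
    show _ = (1 : ℕ[X]).coeff k
    rw [coeff_one]
    by_cases hk : k = 0
    · subst hk
      decide
    · rw [if_neg hk, card_eq_zero, filter_eq_empty_iff]
      intro s hs
      rw [mem_singleton] at hs
      rw [hs, card_empty]
      exact fun h => hk h.symm

theorem join (p q : ℕ[X]) (hp : IsFVector p.coeff) (hq : IsFVector q.coeff) :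
    IsFVector (p * q).coeff := by
  classical
  obtain ⟨n, K, h0, hd, hc⟩ := hp
  obtain ⟨m, K', h0', hd', hc'⟩ := hq
  refine isF_of (α := Fin n ⊕ Fin m)
    ((K ×ˢ K').map (sumEquiv (α := Fin n) (β := Fin m)).symm.toEquiv.toEmbedding) _ ?_ ?_ ?_
  · rw [mem_map_equiv, mem_product]
    simpa using ⟨h0, h0'⟩
  · intro s hs t hts
    rw [mem_map_equiv, mem_product] at hs ⊢
    simp only [OrderIso.toEquiv_symm, Equiv.symm_symm, RelIso.coe_fn_toEquiv,
      sumEquiv_apply_fst, sumEquiv_apply_snd] at hs ⊢
    exact ⟨hd _ hs.1 _ (toLeft_subset_toLeft hts), hd' _ hs.2 _ (toRight_subset_toRight hts)⟩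
  · intro k
    rw [coeff_mul, filter_map, card_map]
    have h1 : (filter ((fun s => s.card = k) ∘
        (sumEquiv (α := Fin n) (β := Fin m)).symm.toEquiv.toEmbedding) (K ×ˢ K')) =
        (antidiagonal k).biUnion (fun x => (K.filter (fun s => s.card = x.1)) ×ˢ
          (K'.filter (fun s => s.card = x.2))) := by
      ext ⟨s, t⟩
      simp only [mem_filter, mem_product, mem_biUnion, Finset.HasAntidiagonal.mem_antidiagonal,
        Function.comp_apply]
      have h2 : (((sumEquiv (α := Fin n) (β := Fin m)).symm.toEquiv.toEmbedding) (s, t)).card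
          = s.card + t.card := by
        show (s.disjSum t).card = _
        exact card_disjSum s t
      rw [h2]
      constructor
      · rintro ⟨⟨h3, h4⟩, h5⟩
        exact ⟨(s.card, t.card), h5, ⟨h3, rfl⟩, h4, rfl⟩
      · rintro ⟨⟨i, j⟩, h5, ⟨h3, h6⟩, h4, h7⟩
        refine ⟨⟨h3, h4⟩, ?_⟩
        dsimp only at h5 h6 h7
        omega
    rw [h1, card_biUnion]
    · refine sum_congr rfl fun x _ => ?_
      rw [card_product, hc, hc']
    · intro x _ y _ hxy
      rw [Function.onFun, disjoint_left]
      rintro ⟨s, t⟩ hs ht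
      simp only [mem_product, mem_filter] at hs ht
      apply hxy
      ext
      · rw [← hs.1.2, ← ht.1.2]
      · rw [← hs.2.2, ← ht.2.2]

theorem cone (p q : ℕ[X]) (hp : IsFVector p.coeff) (hq : IsFVector q.coeff) (hqp : CLe q p) :
    IsFVector (p + X * q).coeff := by
  classical
  obtain ⟨n₁, hn₁⟩ := exists_fin hp
  obtain ⟨n₂, hn₂⟩ := exists_fin hq
  obtain ⟨N, hN⟩ : ∃ N, N = max n₁ n₂ := ⟨_, rfl⟩
  obtain ⟨K, h0, hd, hc⟩ := hn₁ N (hN ▸ le_max_left _ _)
  obtain ⟨K', h0', hd', hc'⟩ := hn₂ N (hN ▸ le_max_right _ _)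
  obtain ⟨𝒞, i1, c1, s1, e1⟩ := exists_comp _ K h0 hd hc
  obtain ⟨𝒟, i2, c2, s2, e2⟩ := exists_comp _ K' h0' hd' hc'
  have hDC : ∀ k, 𝒟 k ⊆ 𝒞 k := by
    intro k
    rcases (i2 k).total (i1 k) with h | h
    · exact h
    · rw [Finset.eq_of_subset_of_card_le h (by rw [c1, c2]; exact hqp k)]
  have sz1 : ∀ k, ∀ s ∈ 𝒞 k, s.card = k := fun k s hs => (i1 k).1 hs
  have sz2 : ∀ k, ∀ s ∈ 𝒟 k, s.card = k := fun k s hs => (i2 k).1 hs
  let Q : Finset (Option (Fin N)) → Prop := fun s =>
    if none ∈ s then eraseNone s ∈ 𝒟 (eraseNone s).card else eraseNone s ∈ 𝒞 (eraseNone s).card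
  refine isF_of (α := Option (Fin N)) (univ.filter Q) _ ?_ ?_ ?_
  · rw [mem_filter]
    refine ⟨mem_univ _, ?_⟩
    show (if none ∈ (∅ : Finset (Option (Fin N))) then _ else _)
    rw [if_neg (notMem_empty _)]
    simpa using e1
  · intro s hs t hts
    rw [mem_filter] at hs ⊢
    refine ⟨mem_univ _, ?_⟩
    have hQ : Q s := hs.2
    have hsub : eraseNone t ⊆ eraseNone s := eraseNone.monotone hts
    have hcd := card_le_card hsub
    show (if none ∈ t then _ else _)
    have hQ' : (if none ∈ s then eraseNone s ∈ 𝒟 (eraseNone s).card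
      else eraseNone s ∈ 𝒞 (eraseNone s).card) := hQ
    by_cases ht : none ∈ t
    · rw [if_pos ht]
      rw [if_pos (hts ht)] at hQ'
      exact down s2 ((eraseNone s).card - (eraseNone t).card) _ _ hsub (by omega) hQ'
    · rw [if_neg ht]
      have h3 : eraseNone s ∈ 𝒞 (eraseNone s).card := by
        by_cases hs' : none ∈ s
        · rw [if_pos hs'] at hQ'
          exact hDC _ hQ'
        · rwa [if_neg hs'] at hQ'
      exact down s1 ((eraseNone s).card - (eraseNone t).card) _ _ hsub (by omega) h3
  · intro k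
    have hsplit : (univ.filter Q).filter (fun s => s.card = k) =
        ((𝒞 k).map (mapEmbedding Function.Embedding.some).toEmbedding) ∪
        (if k = 0 then ∅ else (𝒟 (k - 1)).map (insertNone).toEmbedding) := by
      ext s
      rw [mem_filter, mem_filter, mem_union, mem_map]
      constructor
      · rintro ⟨⟨-, hQ⟩, hk⟩
        have hQ' : (if none ∈ s then eraseNone s ∈ 𝒟 (eraseNone s).card
          else eraseNone s ∈ 𝒞 (eraseNone s).card) := hQ
        by_cases hs : none ∈ s
        · right
          rw [if_pos hs] at hQ'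
          have h3 : insertNone (eraseNone s) = s := by
            rw [insertNone_eraseNone, insert_eq_of_mem hs]
          have h4 : (eraseNone s).card + 1 = k := by
            rw [← hk, ← card_insertNone, h3]
          rw [if_neg (by omega), mem_map]
          refine ⟨eraseNone s, ?_, h3⟩
          have : k - 1 = (eraseNone s).card := by omega
          rw [this]
          exact hQ'
        · left
          rw [if_neg hs] at hQ'
          have h3 : (eraseNone s).map Function.Embedding.some = s := by
            rw [map_some_eraseNone, erase_eq_of_notMem hs]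
          refine ⟨eraseNone s, ?_, h3⟩
          have h4 : (eraseNone s).card = k := by
            rw [← hk]
            conv_rhs => rw [← h3]
            rw [card_map]
          rwa [h4] at hQ'
      · rintro (⟨t, ht, rfl⟩ | h)
        · simp only [RelEmbedding.coe_toEmbedding, mapEmbedding_apply]
          have h3 : none ∉ t.map (Function.Embedding.some : Fin N ↪ Option (Fin N)) := by
            simp
          refine ⟨⟨mem_univ _, ?_⟩, ?_⟩
          · show (if none ∈ t.map (Function.Embedding.some) then _ else _)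
            rw [if_neg h3, eraseNone_map_some, sz1 k t ht]
            exact ht
          · rw [card_map, sz1 k t ht]
        · by_cases hk : k = 0
          · rw [if_pos hk] at h
            exact absurd h (notMem_empty _)
          · rw [if_neg hk, mem_map] at h
            obtain ⟨t, ht, rfl⟩ := h
            simp only [RelEmbedding.coe_toEmbedding]
            refine ⟨⟨mem_univ _, ?_⟩, ?_⟩
            · show (if none ∈ insertNone t then _ else _)
              rw [if_pos (by simp), eraseNone_insertNone, sz2 _ t ht]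
              exact ht
            · rw [card_insertNone, sz2 _ t ht]
              omega
    rw [hsplit, card_union_of_disjoint, card_map, c1]
    · cases k with
      | zero =>
        rw [if_pos rfl, card_empty, coeff_add, mul_coeff_zero, coeff_X_zero, zero_mul]
      | succ k =>
        rw [if_neg (Nat.succ_ne_zero k), card_map, c2, coeff_add, coeff_X_mul]
        rfl
    · rw [disjoint_left]
      intro s hs hs'
      rw [mem_map] at hs
      obtain ⟨t, -, rfl⟩ := hs
      by_cases hk : k = 0
      · rw [if_pos hk] at hs'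
        exact notMem_empty _ hs'
      · rw [if_neg hk, mem_map] at hs'
        obtain ⟨u, -, hu⟩ := hs'
        have h5 : none ∈ insertNone u := by simp
        simp only [RelEmbedding.coe_toEmbedding, mapEmbedding_apply] at hu
        rw [hu] at h5
        simp at h5

end Pool.R142.TG.PA

namespace Pool.R142.TG

theorem stmA : StmA := ⟨PA.coe_one, PA.join, PA.cone⟩

end Pool.R142.TG
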