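import Pool.Agent.R142.TG.Stm

/-! Piece B for MP_41b5b1_co: the final vectors are f-vectors (from the closure properties). -/

set_option autoImplicit false

namespace Pool.R142.TG

open Polynomial

namespace PB

/-! ### coefficientwise order -/

theorem cle_refl (p : ℕ[X]) : CLe p p := fun _ => le_rfl

theorem cle_trans {p q r : ℕ[X]} (h : CLe p q) (h' : CLe q r) : CLe p r :=
  fun k => (h k).trans (h' k)

theorem cle_add {p q p' q' : ℕ[X]} (h : CLe p q) (h' : CLe p' q') : CLe (p + p') (q + q') :=
  fun k => by rw [coeff_add, coeff_add]; exact add_le_add (h k) (h' k)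

theorem cle_zero (p : ℕ[X]) : CLe 0 p := fun k => by simp

theorem cle_add_right (p q : ℕ[X]) : CLe p (p + q) :=
  fun k => by rw [coeff_add]; exact Nat.le_add_right _ _

theorem cle_add_left (p q : ℕ[X]) : CLe q (p + q) :=
  fun k => by rw [coeff_add]; exact Nat.le_add_left _ _

theorem cle_mul {p q p' q' : ℕ[X]} (h : CLe p q) (h' : CLe p' q') : CLe (p * p') (q * q') :=
  fun k => by
    rw [coeff_mul, coeff_mul]
    exact Finset.sum_le_sum fun x _ => Nat.mul_le_mul (h _) (h' _)

theorem cle_sum {ι : Type} (s : Finset ι) (f g : ι → ℕ[X]) (h : ∀ i ∈ s, CLe (f i) (g i)) :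
    CLe (∑ i ∈ s, f i) (∑ i ∈ s, g i) := fun k => by
  rw [finsetSum_coeff, finsetSum_coeff]
  exact Finset.sum_le_sum fun i hi => h i hi k

theorem cle_sum_subset {ι : Type} (s t : Finset ι) (f : ι → ℕ[X]) (h : s ⊆ t) :
    CLe (∑ i ∈ s, f i) (∑ i ∈ t, f i) := fun k => by
  rw [finsetSum_coeff, finsetSum_coeff]
  exact Finset.sum_le_sum_of_subset h

theorem cle_list_sum {α : Type} (l : List α) (f g : α → ℕ[X]) (h : ∀ a ∈ l, CLe (f a) (g a)) :
    CLe (l.map f).sum (l.map g).sum := by
  induction l with
  | nil => exact cle_refl _
  | cons a l ih =>
    simp only [List.map_cons, List.sum_cons]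
    exact cle_add (h a (by simp)) (ih (fun b hb => h b (by simp [hb])))

/-! ### equations for `P` -/

theorem P_nil_zero : P [] 0 = 1 := rfl
theorem P_nil_succ (k : ℕ) : P [] (k + 1) = 0 := rfl
theorem P_false (w : List Bool) (k : ℕ) : P (false :: w) k = P w k + P w (k + 1) := by
  cases k <;> rfl
theorem P_true_zero (w : List Bool) : P (true :: w) 0 = P w 0 := rfl
theorem P_true_succ (w : List Bool) (k : ℕ) :
    P (true :: w) (k + 1) = P w (k + 1) + X * P w k := rfl

/-- the splittings `w = a ++ true :: b` -/
def spl : List Bool → List (List Bool × List Bool)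
  | [] => []
  | false :: w => (spl w).map (fun x => (false :: x.1, x.2))
  | true :: w => ([], w) :: (spl w).map (fun x => (true :: x.1, x.2))

theorem spl_eq (w : List Bool) : ∀ x ∈ spl w, w = x.1 ++ true :: x.2 := by
  induction w with
  | nil => simp [spl]
  | cons c w ih =>
    cases c with
    | false =>
      intro x hx
      simp only [spl, List.mem_map] at hx
      obtain ⟨y, hy, rfl⟩ := hx
      simp only [List.cons_append]
      rw [← ih y hy]
    | true =>
      intro x hx
      simp only [spl, List.mem_cons, List.mem_map] at hx
      rcases hx with rfl | ⟨y, hy, rfl⟩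
      · simp
      · simp only [List.cons_append]
        rw [← ih y hy]

/-- first passage decomposition -/
theorem P_split (w : List Bool) : ∀ j k : ℕ,
    P w (j + k + 1) = X * ((spl w).map (fun x => P x.1 j * P x.2 k)).sum := by
  induction w with
  | nil => intro j k; simp [spl, P_nil_succ]
  | cons c w ih =>
    intro j k
    cases c with
    | false =>
      rw [P_false, ih j k, show j + k + 1 + 1 = (j + 1) + k + 1 by ring, ih (j + 1) k, ← mul_add,
        ← List.sum_map_add]
      simp only [spl, List.map_map]
      congr 3
      ext1 x
      simp only [Function.comp, P_false]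
      ring
    | true =>
      rw [P_true_succ]
      simp only [spl, List.map_cons, List.sum_cons, List.map_map]
      cases j with
      | zero =>
        have : ((fun x : List Bool × List Bool => P x.1 0 * P x.2 k) ∘
            fun x : List Bool × List Bool => (true :: x.1, x.2)) = fun x => P x.1 0 * P x.2 k := by
          ext1 x
          simp only [Function.comp, P_true_zero]
        rw [this, P_nil_zero, one_mul, mul_add, ← ih 0 k, zero_add, add_comm]
      | succ j =>
        have : ((fun x : List Bool × List Bool => P x.1 (j + 1) * P x.2 k) ∘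
            fun x : List Bool × List Bool => (true :: x.1, x.2)) = fun x => P x.1 (j + 1) * P x.2 k +
              X * (P x.1 j * P x.2 k) := by
          ext1 x
          simp only [Function.comp, P_true_succ]
          ring
        rw [this, P_nil_succ, zero_mul, zero_add, List.sum_map_add, List.sum_map_mul_left,
          mul_add, ← ih (j + 1) k, ← ih j k]
        congr 3
        ring

theorem N_false (w : List Bool) :
    N (false :: w) = N w + X * ((spl w).map (fun x => N x.1 * N x.2)).sum := by
  unfold N
  rw [P_false, ← P_split w 0 0]

theorem N_true (w : List Bool) : N (true :: w) = N w := rfl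

/-- supermultiplicativity -/
theorem P_mul_le (a b : List Bool) : ∀ j k : ℕ, CLe (P a j * P b k) (P (a ++ b) (j + k)) := by
  induction a with
  | nil =>
    intro j k
    cases j with
    | zero => rw [P_nil_zero, one_mul, zero_add]; exact cle_refl _
    | succ j => rw [P_nil_succ, zero_mul]; exact cle_zero _
  | cons c a ih =>
    intro j k
    cases c with
    | false =>
      rw [P_false, List.cons_append, P_false, add_mul]
      refine cle_add (ih j k) ?_
      have := ih (j + 1) k
      rwa [show j + 1 + k = j + k + 1 by ring] at this
    | true =>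
      rw [List.cons_append]
      cases j with
      | zero =>
        rw [P_true_zero]
        refine cle_trans (ih 0 k) ?_
        rw [zero_add]
        cases k with
        | zero => exact cle_refl _
        | succ k => rw [P_true_succ]; exact cle_add_right _ _
      | succ j =>
        rw [P_true_succ, show j + 1 + k = (j + k) + 1 by ring, P_true_succ, add_mul]
        refine cle_add ?_ ?_
        · have := ih (j + 1) k
          rwa [show j + 1 + k = j + k + 1 by ring] at this
        · rw [mul_assoc]
          exact cle_mul (cle_refl _) (ih j k)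

theorem P_cons_ge (c : Bool) (w : List Bool) (k : ℕ) : CLe (P w k) (P (c :: w) k) := by
  cases c with
  | false => rw [P_false]; exact cle_add_right _ _
  | true =>
    cases k with
    | zero => exact cle_refl _
    | succ k => rw [P_true_succ]; exact cle_add_right _ _

theorem N_mul_le (a b : List Bool) : CLe (N a * N b) (N (a ++ b)) := P_mul_le a b 0 0

theorem N_mul_le' (a b : List Bool) (c : Bool) : CLe (N a * N b) (N (a ++ c :: b)) :=
  cle_trans (cle_mul (cle_refl _) (P_cons_ge c b 0)) (N_mul_le a (c :: b))

/-! ### adding f-vectors -/

/-- `p` is an f-vector that dominates `D` -/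
def Good (D p : ℕ[X]) : Prop := IsFVector p.coeff ∧ CLe D p

variable (hA : StmA)
include hA

theorem good_add {D p q : ℕ[X]} (h : Good D p) (hq : IsFVector q.coeff) (hqD : CLe q D) :
    Good D (p + X * q) :=
  ⟨hA.2.2 p q h.1 hq (cle_trans hqD h.2), cle_trans h.2 (cle_add_right _ _)⟩

theorem good_list {D : ℕ[X]} (l : List ℕ[X]) (hl : ∀ q ∈ l, IsFVector q.coeff ∧ CLe q D) :
    ∀ p, Good D p → Good D (p + X * l.sum) := by
  induction l with
  | nil => intro p h; simpa using h
  | cons q l ih =>
    intro p h
    rw [List.sum_cons, mul_add, ← add_assoc]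
    exact ih (fun r hr => hl r (by simp [hr])) _
      (good_add hA h (hl q (by simp)).1 (hl q (by simp)).2)

theorem good_smul {D : ℕ[X]} (l : List ℕ[X]) (hl : ∀ q ∈ l, IsFVector q.coeff ∧ CLe q D) (n : ℕ) :
    ∀ p, Good D p → Good D (p + n • (X * l.sum)) := by
  induction n with
  | zero => intro p h; simpa using h
  | succ n ih =>
    intro p h
    rw [succ_nsmul, ← add_assoc]
    exact good_list hA l hl _ (ih p h)

theorem good_sum {D : ℕ[X]} {ι : Type} (s : Finset ι) (l : ι → List ℕ[X]) (n : ι → ℕ)
    (hl : ∀ i ∈ s, ∀ q ∈ l i, IsFVector q.coeff ∧ CLe q D) :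
    ∀ p, Good D p → Good D (p + ∑ i ∈ s, n i • (X * (l i).sum)) := by
  classical
  induction s using Finset.induction_on with
  | empty => intro p h; simpa using h
  | insert a s ha ih =>
    intro p h
    rw [Finset.sum_insert ha, ← add_assoc]
    exact ih (fun i hi => hl i (by simp [hi])) _
      (good_smul hA (l a) (hl a (by simp)) (n a) p h)

theorem N_fvec (m : ℕ) : ∀ w : List Bool, w.length ≤ m → IsFVector (N w).coeff := by
  induction m with
  | zero =>
    intro w hw
    have : w = [] := List.length_eq_zero_iff.1 (by omega)
    subst this
    exact hA.1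
  | succ m ih =>
    intro w hw
    cases w with
    | nil => exact hA.1
    | cons c w =>
      simp only [List.length_cons] at hw
      cases c with
      | true => rw [N_true]; exact ih w (by omega)
      | false =>
        rw [N_false]
        refine (good_list hA (D := N w) _ ?_ (N w) ⟨ih w (by omega), cle_refl _⟩).1
        intro q hq
        simp only [List.mem_map] at hq
        obtain ⟨x, hx, rfl⟩ := hq
        have hw' := spl_eq w x hx
        have hlen : w.length = x.1.length + (x.2.length + 1) := by
          conv_lhs => rw [hw']
          simp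
        refine ⟨hA.2.1 _ _ (ih _ (by omega)) (ih _ (by omega)), ?_⟩
        have := N_mul_le' x.1 x.2 true
        rwa [← hw'] at this

omit hA

/-! ### sums over all words -/

theorem R_zero (d : ℕ) : R 0 d = ((words d).map N).sum := by
  unfold R
  simp [alt]

theorem words_succ (r : ℕ) : words (r + 1) =
    (words r).map (fun w => false :: w) ++ (words r).map (fun w => true :: w) := rfl

theorem sum_words_succ (f : List Bool → ℕ[X]) (r : ℕ) :
    ((words (r + 1)).map f).sum =
      ((words r).map (fun w => f (false :: w) + f (true :: w))).sum := by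
  rw [words_succ, List.map_append, List.sum_append, List.map_map, List.map_map,
    List.sum_map_add]
  rfl

theorem words_length (r : ℕ) : ∀ w ∈ words r, w.length = r := by
  induction r with
  | zero => simp [words]
  | succ r ih =>
    intro w hw
    rw [words_succ, List.mem_append, List.mem_map, List.mem_map] at hw
    rcases hw with ⟨v, hv, rfl⟩ | ⟨v, hv, rfl⟩ <;> simp [ih v hv]

theorem sum_words_append (b : ℕ) : ∀ (a : ℕ) (f : List Bool → ℕ[X]),
    ((words a).map (fun w => ((words b).map (fun v => f (w ++ v))).sum)).sum =
      ((words (a + b)).map f).sum := by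
  intro a
  induction a with
  | zero => intro f; simp [words]
  | succ a ih =>
    intro f
    rw [sum_words_succ, show a + 1 + b = (a + b) + 1 by ring, sum_words_succ,
      List.sum_map_add, List.sum_map_add]
    simp only [List.cons_append]
    rw [ih (fun w => f (false :: w)), ih (fun w => f (true :: w))]

theorem sum_mul_sum_list {α β : Type} (l : List α) (m : List β) (f : α → ℕ[X]) (g : β → ℕ[X]) :
    (l.map f).sum * (m.map g).sum = (l.map (fun a => (m.map (fun b => f a * g b)).sum)).sum := by
  simp only [List.sum_map_mul_left, List.sum_map_mul_right]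

theorem s_mul_le (a b : ℕ) : CLe (R 0 a * R 0 b) (R 0 (a + b)) := by
  rw [R_zero, R_zero, R_zero, sum_mul_sum_list, ← sum_words_append]
  exact cle_list_sum _ _ _ fun w _ => cle_list_sum _ _ _ fun v _ => N_mul_le w v

theorem sum_spl (d : ℕ) : ∀ f : List Bool → List Bool → ℕ[X],
    ((words d).map (fun w => ((spl w).map (fun x => f x.1 x.2)).sum)).sum =
      ∑ i ∈ Finset.range d,
        ((words i).map (fun a => ((words (d - 1 - i)).map (fun b => f a b)).sum)).sum := by
  induction d with
  | zero => intro f; simp [words, spl]
  | succ d ih =>
    intro f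
    rw [sum_words_succ]
    simp only [spl, List.map_cons, List.sum_cons, List.map_map, Function.comp_def]
    rw [List.sum_map_add, List.sum_map_add, ih (fun a b => f (false :: a) b),
      ih (fun a b => f (true :: a) b), Finset.sum_range_succ']
    have h0 : ((words 0).map (fun a => ((words (d + 1 - 1 - 0)).map (fun b => f a b)).sum)).sum =
        ((words d).map (fun b => f [] b)).sum := by
      simp [words]
    rw [h0]
    have h1 : ∀ i ∈ Finset.range d,
        ((words (i + 1)).map
          (fun a => ((words (d + 1 - 1 - (i + 1))).map (fun b => f a b)).sum)).sum =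
        ((words i).map (fun a => ((words (d - 1 - i)).map (fun b => f (false :: a) b)).sum)).sum +
        ((words i).map (fun a => ((words (d - 1 - i)).map (fun b => f (true :: a) b)).sum)).sum := by
      intro i _
      rw [sum_words_succ, List.sum_map_add, show d + 1 - 1 - (i + 1) = d - 1 - i by omega]
    rw [Finset.sum_congr rfl h1, Finset.sum_add_distrib]
    ring

theorem s_succ (d : ℕ) :
    R 0 (d + 1) = 2 * R 0 d + X * ∑ i ∈ Finset.range d, R 0 i * R 0 (d - 1 - i) := by
  rw [R_zero, sum_words_succ]
  have h : (fun w => N (false :: w) + N (true :: w)) =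
      fun w => 2 * N w + X * ((spl w).map (fun x => N x.1 * N x.2)).sum := by
    ext1 w
    rw [N_false, N_true]
    ring
  rw [h, List.sum_map_add, List.sum_map_mul_left, List.sum_map_mul_left, ← R_zero,
    sum_spl d (fun a b => N a * N b)]
  congr 2
  apply Finset.sum_congr rfl
  intro i _
  rw [R_zero, R_zero, sum_mul_sum_list]

theorem C_zero : C 0 = 1 := by rw [C]

theorem C_succ (d : ℕ) :
    C (d + 1) = C d + X * ∑ i ∈ Finset.range d, C i * R 0 (d - 1 - i) := by
  rw [C, Finset.sum_range (fun i => C i * R 0 (d - 1 - i))]

theorem C_le_s (d : ℕ) : CLe (C d) (R 0 d) := by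
  induction d using Nat.strong_induction_on with
  | _ d ih =>
    cases d with
    | zero =>
      rw [C_zero, R_zero]
      simp only [words, List.map_cons, List.map_nil, List.sum_cons, List.sum_nil, add_zero]
      exact cle_refl _
    | succ d =>
      rw [C_succ, s_succ, two_mul, add_assoc]
      refine cle_add (ih d (by omega)) (cle_trans ?_ (cle_add_left _ _))
      refine cle_mul (cle_refl _) (cle_sum _ _ _ fun i hi => ?_)
      rw [Finset.mem_range] at hi
      exact cle_mul (ih i (by omega)) (cle_refl _)

theorem C_le_succ (d : ℕ) : CLe (C d) (C (d + 1)) := by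
  rw [C_succ]; exact cle_add_right _ _

theorem C_mono {a b : ℕ} (h : a ≤ b) : CLe (C a) (C b) := by
  induction b, h using Nat.le_induction with
  | base => exact cle_refl _
  | succ b _ ih => exact cle_trans ih (C_le_succ b)

theorem C_mul_le (b : ℕ) : ∀ a : ℕ, CLe (C a * C b) (C (a + b)) := by
  intro a
  induction a with
  | zero => rw [C_zero, one_mul, zero_add]; exact cle_refl _
  | succ a ih =>
    rw [C_succ, show a + 1 + b = (a + b) + 1 by ring, C_succ, add_mul]
    refine cle_add ih ?_
    rw [mul_assoc, Finset.sum_mul]
    refine cle_mul (cle_refl _) ?_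
    refine cle_trans (cle_sum _ _ (fun i => C i * R 0 (a + b - 1 - i)) fun i hi => ?_)
      (cle_sum_subset _ _ _ (by
        intro i hi
        rw [Finset.mem_range] at hi ⊢
        omega))
    rw [Finset.mem_range] at hi
    rw [mul_assoc]
    refine cle_mul (cle_refl _) ?_
    refine cle_trans (cle_mul (cle_refl _) (C_le_s b)) ?_
    have := s_mul_le (a - 1 - i) b
    rwa [show a - 1 - i + b = a + b - 1 - i by omega] at this

theorem spl_sum_le (g : ℕ → ℕ → ℕ[X]) (w : List Bool) : ∀ m : ℕ,
    CLe ((spl w).map (fun x => g (x.1.length + m) x.2.length)).sum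
      (∑ i ∈ Finset.range w.length, g (i + m) (w.length - 1 - i)) := by
  induction w with
  | nil => intro m; simp only [spl, List.map_nil, List.sum_nil]; exact cle_zero _
  | cons c w ih =>
    intro m
    have hR : ∑ i ∈ Finset.range (c :: w).length, g (i + m) ((c :: w).length - 1 - i) =
        ∑ i ∈ Finset.range w.length, g (i + (m + 1)) (w.length - 1 - i) + g m w.length := by
      rw [List.length_cons, Finset.sum_range_succ']
      congr 1
      · apply Finset.sum_congr rfl
        intro i _
        rw [show i + 1 + m = i + (m + 1) by ring,
          show w.length + 1 - 1 - (i + 1) = w.length - 1 - i by omega]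
      · simp
    rw [hR]
    have h2 : ∀ c : Bool, ((fun x : List Bool × List Bool => g (x.1.length + m) x.2.length) ∘
        fun x : List Bool × List Bool => (c :: x.1, x.2)) = fun x => g (x.1.length + (m + 1)) x.2.length := by
      intro c
      ext1 x
      simp only [Function.comp, List.length_cons]
      rw [show x.1.length + 1 + m = x.1.length + (m + 1) by ring]
    cases c with
    | false =>
      simp only [spl, List.map_map, h2]
      exact cle_trans (ih (m + 1)) (cle_add_right _ _)
    | true =>
      simp only [spl, List.map_cons, List.sum_cons, List.map_map, h2]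
      rw [add_comm]
      refine cle_add (ih (m + 1)) ?_
      simp only [List.length_nil, zero_add]
      exact cle_refl _

theorem N_le_C (m : ℕ) : ∀ w : List Bool, w.length ≤ m → CLe (N w) (C w.length) := by
  induction m with
  | zero =>
    intro w hw
    have : w = [] := List.length_eq_zero_iff.1 (by omega)
    subst this
    simp only [List.length_nil]
    rw [C_zero]
    exact cle_refl _
  | succ m ih =>
    intro w hw
    cases w with
    | nil => simp only [List.length_nil]; rw [C_zero]; exact cle_refl _
    | cons c w =>
      simp only [List.length_cons] at hw ⊢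
      cases c with
      | true => rw [N_true]; exact cle_trans (ih w (by omega)) (C_le_succ _)
      | false =>
        rw [N_false, C_succ]
        refine cle_add (ih w (by omega)) (cle_mul (cle_refl _) ?_)
        refine cle_trans (cle_list_sum _ _ (fun x => C (x.1.length + 0) * C x.2.length)
          fun x hx => ?_) ?_
        · have hw' := spl_eq w x hx
          have hlen : w.length = x.1.length + (x.2.length + 1) := by
            conv_lhs => rw [hw']
            simp
          exact cle_mul (ih _ (by omega)) (ih _ (by omega))
        · refine cle_trans (spl_sum_le (fun i j => C i * C j) w 0) ?_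
          refine cle_sum _ _ _ fun i _ => ?_
          exact cle_mul (cle_refl _) (C_le_s _)

include hA in
theorem C_fvec (d : ℕ) : IsFVector (C d).coeff := by
  induction d using Nat.strong_induction_on with
  | _ d ih =>
    cases d with
    | zero => rw [C_zero]; exact hA.1
    | succ d =>
      rw [C_succ]
      have hrw : X * ∑ i ∈ Finset.range d, C i * R 0 (d - 1 - i) =
          ∑ i ∈ Finset.range d, 1 • (X * ((words (d - 1 - i)).map (fun w => C i * N w)).sum) := by
        rw [Finset.mul_sum]
        apply Finset.sum_congr rfl
        intro i _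
        rw [one_smul, R_zero, List.sum_map_mul_left]
      rw [hrw]
      refine (good_sum hA (D := C d) (Finset.range d) _ (fun _ => 1) ?_ (C d)
        ⟨ih d (by omega), cle_refl _⟩).1
      intro i hi q hq
      rw [Finset.mem_range] at hi
      simp only [List.mem_map] at hq
      obtain ⟨w, hw, rfl⟩ := hq
      have hlen := words_length _ w hw
      refine ⟨hA.2.1 _ _ (ih i (by omega)) (N_fvec hA _ w le_rfl), ?_⟩
      refine cle_trans (cle_mul (cle_refl _) (N_le_C _ w le_rfl)) ?_
      refine cle_trans (C_mul_le _ _) (C_mono ?_)
      omega

theorem alt_length (J : ℕ) : (alt J).length = 2 * J := by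
  induction J with
  | zero => rfl
  | succ J ih => simp only [alt, List.length_cons, ih]; ring

end PB

open PB in
theorem stmB : StmB := by
  intro hA d γ
  have := (good_sum hA (D := C d) (Finset.range (d / 2))
    (fun j => (words (d - 2 * (j + 1))).map (fun w => N (w ++ alt j))) (fun j => γ (j + 1)) ?_
    (C d) ⟨C_fvec hA d, cle_refl _⟩).1
  · exact this
  · intro j hj q hq
    rw [Finset.mem_range] at hj
    simp only [List.mem_map] at hq
    obtain ⟨w, hw, rfl⟩ := hq
    have hlen := words_length _ w hw
    refine ⟨N_fvec hA _ _ le_rfl, ?_⟩
    refine cle_trans (N_le_C _ _ le_rfl) (C_mono ?_)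
    rw [List.length_append, hlen, alt_length]
    omega

end Pool.R142.TG
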