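import Pool.Agent.R142.TG.Stm

/-! Piece C for MP_41b5b1_co: the operator identity. -/

namespace Pool.R142.TG.PC

open Polynomial

/-! ### degrees -/

theorem deg_P : ∀ (w : List Bool) (k : ℕ), (P w k).natDegree ≤ (w.length + k) / 2
  | [], 0 => by simp [P]
  | [], k + 1 => by simp [P]
  | false :: w, k => by
      have h1 := deg_P w k
      have h2 := deg_P w (k + 1)
      rw [P]
      apply natDegree_add_le_of_degree_le
      · simp only [List.length_cons]; omega
      · simp only [List.length_cons]; omega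
  | true :: w, 0 => by
      have h1 := deg_P w 0
      rw [P]
      simp only [List.length_cons]; omega
  | true :: w, k + 1 => by
      have h1 := deg_P w (k + 1)
      have h2 := deg_P w k
      rw [P]
      apply natDegree_add_le_of_degree_le
      · simp only [List.length_cons]; omega
      · refine natDegree_mul_le.trans ?_
        simp only [List.length_cons, natDegree_X]
        omega

theorem length_words : ∀ (r : ℕ) (w : List Bool), w ∈ words r → w.length = r
  | 0, w, h => by simp [words] at h; simp [h]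
  | r + 1, w, h => by
      simp only [words, List.mem_append, List.mem_map] at h
      rcases h with ⟨v, hv, rfl⟩ | ⟨v, hv, rfl⟩ <;> simp [length_words r v hv]

theorem length_alt : ∀ J : ℕ, (alt J).length = 2 * J
  | 0 => by simp [alt]
  | J + 1 => by simp [alt, length_alt J]; ring

theorem deg_listsum {l : List ℕ[X]} {n : ℕ} (h : ∀ p ∈ l, p.natDegree ≤ n) :
    l.sum.natDegree ≤ n := by
  induction l with
  | nil => simp
  | cons p l ih =>
    rw [List.sum_cons]
    apply natDegree_add_le_of_degree_le
    · exact h p (by simp)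
    · exact ih fun q hq => h q (by simp [hq])

theorem deg_R (J r : ℕ) : (R J r).natDegree ≤ (2 * J + r) / 2 := by
  unfold R
  apply deg_listsum
  intro p hp
  simp only [List.mem_map] at hp
  obtain ⟨w, hw, rfl⟩ := hp
  have := deg_P (w ++ alt J) 0
  rw [List.length_append, length_words r w hw, length_alt] at this
  unfold N
  omega

theorem deg_C (d : ℕ) : (C d).natDegree ≤ d / 2 := by
  induction d using Nat.strong_induction_on with
  | _ d ih =>
    cases d with
    | zero => rw [C]; simp
    | succ d =>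
      rw [C]
      apply natDegree_add_le_of_degree_le
      · have := ih d (by omega)
        omega
      · rcases Nat.eq_zero_or_pos d with rfl | hd
        · simp
        refine natDegree_mul_le.trans ?_
        rw [natDegree_X]
        have : (∑ i : Fin d, C i.1 * R 0 (d - 1 - i.1)).natDegree ≤ (d - 1) / 2 := by
          apply natDegree_sum_le_of_forall_le
          intro i _
          refine natDegree_mul_le.trans ?_
          have h1 := ih i.1 (by omega)
          have h2 := deg_R 0 (d - 1 - i.1)
          have := i.2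
          omega
        omega

theorem deg_G (j r : ℕ) : 2 * (G j r).natDegree ≤ 2 * j + r := by
  cases j with
  | zero =>
    rw [G]
    have := deg_C r
    omega
  | succ j =>
    rw [G]
    have h1 : (X * R j r).natDegree ≤ 1 + (R j r).natDegree := by
      refine natDegree_mul_le.trans ?_
      rw [natDegree_X]
    have h2 := deg_R j r
    omega

/-! ### operators -/

/-- `divX` as a linear map -/
noncomputable def dv : Module.End ℝ ℝ[X] where
  toFun f := f.divX
  map_add' f g := divX_add
  map_smul' c f := by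
    ext n
    simp [coeff_divX]

noncomputable def mx : Module.End ℝ ℝ[X] := LinearMap.mulLeft ℝ X

theorem dv_apply (f : ℝ[X]) : dv f = f.divX := rfl
theorem mx_apply (f : ℝ[X]) : mx f = X * f := rfl

theorem dv_mul_X_add (g : ℝ[X]) (a : ℝ) : dv (X * g + Polynomial.C a) = g := by
  ext n
  rw [dv_apply, coeff_divX]
  simp [coeff_X_mul, coeff_C]

theorem dv_mul_mx : dv * mx = 1 := by
  refine LinearMap.ext fun f => ?_
  have := dv_mul_X_add f 0
  rw [Module.End.mul_apply, mx_apply, Module.End.one_apply]
  simpa using this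

theorem decomp (f : ℝ[X]) : X * dv f + Polynomial.C (f.coeff 0) = f := by
  have := divX_mul_X_add f
  rw [mul_comm] at this
  exact this

noncomputable def T (x : ℝ) : Module.End ℝ ℝ[X] := mx + x • dv
noncomputable def L0 : Module.End ℝ ℝ[X] := 1 + mx
noncomputable def L1 (x : ℝ) : Module.End ℝ ℝ[X] := 1 + x • dv

theorem L_add (x : ℝ) : L0 + L1 x = 2 + T x := by
  unfold L0 L1 T
  rw [← one_add_one_eq_two]
  abel

theorem L_mul (x : ℝ) : L1 x * L0 = algebraMap ℝ _ (1 + x) + T x := by
  unfold L0 L1 T
  rw [mul_add, add_mul, add_mul, smul_mul_assoc, smul_mul_assoc, dv_mul_mx,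
    Algebra.algebraMap_eq_smul_one, add_smul]
  simp only [mul_one, one_mul, one_smul]
  abel

theorem eval_T (x a : ℝ) (ha : a ≠ 0) (f : ℝ[X]) :
    eval a (T x f) = a * eval a f + x * ((eval a f - eval 0 f) / a) := by
  have h1 : eval a f = a * eval a (dv f) + eval 0 f := by
    conv_lhs => rw [← decomp f]
    simp [coeff_zero_eq_eval_zero]
  have h2 : eval a (dv f) = (eval a f - eval 0 f) / a := by
    rw [h1]; field_simp; ring
  unfold T
  simp only [LinearMap.add_apply, LinearMap.smul_apply, mx_apply, eval_add, eval_mul, eval_X,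
    eval_smul, smul_eq_mul, h2]

/-- value of the generating polynomial -/
noncomputable def val (p : ℕ[X]) (x : ℝ) : ℝ := (p.map (Nat.castRingHom ℝ)).eval x

/-- the operator of a word (first letter first) -/
noncomputable def opw (x : ℝ) : List Bool → Module.End ℝ ℝ[X]
  | [] => 1
  | false :: w => opw x w * L0
  | true :: w => opw x w * L1 x

theorem opw_append (x : ℝ) : ∀ w v : List Bool, opw x (w ++ v) = opw x v * opw x w
  | [], v => by simp [opw]
  | false :: w, v => by simp [opw, opw_append x w v, mul_assoc]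
  | true :: w, v => by simp [opw, opw_append x w v, mul_assoc]

theorem opw_alt (x : ℝ) : ∀ J : ℕ, opw x (alt J) = (L1 x * L0) ^ J
  | 0 => by simp [opw, alt]
  | J + 1 => by
      rw [alt, opw, opw, opw_alt x J, pow_succ, mul_assoc]

theorem opw_words (x : ℝ) : ∀ r : ℕ, ((words r).map (opw x)).sum = (L0 + L1 x) ^ r
  | 0 => by simp [opw, words]
  | r + 1 => by
      rw [words, List.map_append, List.sum_append, List.map_map, List.map_map, pow_succ,
        ← opw_words x r, mul_add]
      congr 1
      · rw [← List.sum_map_mul_right]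
        rfl
      · rw [← List.sum_map_mul_right]
        rfl

theorem eval_opw (x : ℝ) : ∀ (w : List Bool) (k : ℕ), eval 0 (opw x w (X ^ k)) = val (P w k) x
  | [], 0 => by simp [opw, P, val]
  | [], k + 1 => by simp [opw, P, val]
  | false :: w, k => by
      have h : L0 (X ^ k) = X ^ k + X ^ (k + 1) := by
        unfold L0
        simp only [LinearMap.add_apply, Module.End.one_apply, mx_apply]
        ring
      rw [opw, Module.End.mul_apply, h, map_add, eval_add, eval_opw x w k, eval_opw x w (k + 1), P]
      simp [val]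
  | true :: w, 0 => by
      have h : L1 x (X ^ 0) = X ^ 0 := by
        unfold L1
        have : dv (1 : ℝ[X]) = 0 := by
          have := dv_mul_X_add 0 1
          simpa using this
        simp [this]
      rw [opw, Module.End.mul_apply, h, eval_opw x w 0, P]
  | true :: w, k + 1 => by
      have h : L1 x (X ^ (k + 1)) = X ^ (k + 1) + x • X ^ k := by
        unfold L1
        have : dv ((X : ℝ[X]) ^ (k + 1)) = X ^ k := by
          have := dv_mul_X_add (X ^ k) 0
          simpa [pow_succ'] using this
        simp [this]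
      rw [opw, Module.End.mul_apply, h, map_add, map_smul, eval_add, eval_smul, eval_opw x w k,
        eval_opw x w (k + 1), P]
      simp [val]

theorem val_R (x : ℝ) (J r : ℕ) :
    eval 0 (((L1 x * L0) ^ J * (L0 + L1 x) ^ r) 1) = val (R J r) x := by
  rw [← opw_alt, ← opw_words, ← List.sum_map_mul_left]
  have h1 : ∀ l : List (List Bool),
      eval 0 ((l.map (fun w => opw x (alt J) * opw x w)).sum 1)
        = val ((l.map (fun w => N (w ++ alt J))).sum) x := by
    intro l
    induction l with
    | nil => simp [val]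
    | cons w l ih =>
      rw [List.map_cons, List.sum_cons, LinearMap.add_apply, eval_add, ih, List.map_cons,
        List.sum_cons]
      have h2 : eval 0 ((opw x (alt J) * opw x w) 1) = val (N (w ++ alt J)) x := by
        rw [← opw_append]
        have := eval_opw x (w ++ alt J) 0
        simpa [N] using this
      rw [h2]
      simp [val]
  exact h1 (words r)

/-! ### substitutions -/

/-- `f(D) ↦ f(c D)` -/
noncomputable def S (c : ℝ) : Module.End ℝ ℝ[X] := (Polynomial.aeval (Polynomial.C c * X)).toLinearMap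

theorem S_apply (c : ℝ) (f : ℝ[X]) : S c f = f.comp (Polynomial.C c * X) := by
  unfold S
  rw [AlgHom.toLinearMap_apply]
  rfl

theorem S_mx (c : ℝ) (f : ℝ[X]) : S c (mx f) = c • mx (S c f) := by
  rw [S_apply, S_apply, mx_apply, mx_apply, mul_comp, X_comp, smul_eq_C_mul]
  ring

theorem dv_S (c : ℝ) (f : ℝ[X]) : dv (S c f) = c • S c (dv f) := by
  conv_lhs => rw [← decomp f]
  rw [S_apply, add_comp, mul_comp, X_comp, C_comp, S_apply]
  have := dv_mul_X_add (Polynomial.C c * (dv f).comp (Polynomial.C c * X)) (f.coeff 0)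
  rw [smul_eq_C_mul, ← this]
  congr 1
  ring

theorem S_neg_T (x : ℝ) (f : ℝ[X]) : S (-1) (T x f) = - T x (S (-1) f) := by
  unfold T
  rw [LinearMap.add_apply, map_add, LinearMap.smul_apply, map_smul, S_mx, LinearMap.add_apply,
    LinearMap.smul_apply, dv_S]
  module

theorem S_one (c : ℝ) : S c 1 = 1 := by
  rw [S_apply]; simp

theorem eval_S_zero (c : ℝ) (f : ℝ[X]) : eval 0 (S c f) = eval 0 f := by
  rw [S_apply, eval_comp]; simp

theorem parity (x : ℝ) (j r : ℕ) :
    S (-1) (((algebraMap ℝ _ (1 + x) - T x) ^ j * (2 - T x) ^ r) 1)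
      = ((algebraMap ℝ _ (1 + x) + T x) ^ j * (2 + T x) ^ r) 1 := by
  have hB : ∀ (r : ℕ) (f : ℝ[X]), S (-1) (((2 - T x) ^ r) f) = ((2 + T x) ^ r) (S (-1) f) := by
    intro r
    induction r with
    | zero => intro f; simp
    | succ r ih =>
      intro f
      rw [pow_succ, pow_succ, Module.End.mul_apply, Module.End.mul_apply, ih]
      congr 1
      rw [LinearMap.sub_apply, map_sub, S_neg_T, LinearMap.add_apply]
      have h2 : ∀ g : ℝ[X], (2 : Module.End ℝ ℝ[X]) g = (2 : ℝ) • g := by
        intro g
        have : (2 : Module.End ℝ ℝ[X]) = algebraMap ℝ _ (2 : ℝ) :=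
          (map_ofNat (algebraMap ℝ (Module.End ℝ ℝ[X])) 2).symm
        rw [this, Module.algebraMap_end_apply]
      rw [h2, h2, map_smul]
      module
  have hA : ∀ (j : ℕ) (f : ℝ[X]), S (-1) (((algebraMap ℝ (Module.End ℝ ℝ[X]) (1 + x) - T x) ^ j) f)
      = ((algebraMap ℝ _ (1 + x) + T x) ^ j) (S (-1) f) := by
    intro j
    induction j with
    | zero => intro f; simp
    | succ j ih =>
      intro f
      rw [pow_succ, pow_succ, Module.End.mul_apply, Module.End.mul_apply, ih]
      congr 1
      rw [LinearMap.sub_apply, map_sub, S_neg_T, LinearMap.add_apply, Module.algebraMap_end_apply,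
        Module.algebraMap_end_apply, map_smul]
      module
  rw [Module.End.mul_apply, hA, hB, S_one, Module.End.mul_apply]

theorem eval_zero_v (x : ℝ) (j r : ℕ) :
    eval 0 (((algebraMap ℝ _ (1 + x) - T x) ^ j * (2 - T x) ^ r) 1) = val (R j r) x := by
  rw [← eval_S_zero (-1), parity, ← L_mul, ← L_add, val_R]

/-! ### the functional -/

/-- the functional -/
noncomputable def Phi (x : ℝ) : ℝ[X] →ₗ[ℝ] ℝ where
  toFun p := eval 1 ((Polynomial.aeval (T x) p) 1)
  map_add' p q := by simp
  map_smul' c p := by simp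

theorem Phi_apply (x : ℝ) (p : ℝ[X]) : Phi x p = eval 1 ((Polynomial.aeval (T x) p) 1) := rfl

theorem aeval_T (x a b : ℝ) (j r : ℕ) :
    Polynomial.aeval (T x) ((Polynomial.C a - X) ^ j * (Polynomial.C b - X) ^ r)
      = (algebraMap ℝ _ a - T x) ^ j * (algebraMap ℝ _ b - T x) ^ r := by
  rw [map_mul, map_pow, map_pow, map_sub, map_sub, aeval_C, aeval_C, aeval_X]

theorem E_T (x : ℝ) (hx : x ≠ 0) (f : ℝ[X]) :
    x * eval x (T x f) - eval 1 (T x f) = (1 + x) * (x * eval x f - eval 1 f) := by
  rw [eval_T x x hx, eval_T x 1 one_ne_zero]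
  field_simp
  ring

theorem E_aeval (x : ℝ) (hx : x ≠ 0) (p : ℝ[X]) :
    x * eval x ((Polynomial.aeval (T x) p) 1) - eval 1 ((Polynomial.aeval (T x) p) 1)
      = (x - 1) * eval (1 + x) p := by
  induction p using Polynomial.induction_on' with
  | add p q hp hq =>
    rw [map_add, LinearMap.add_apply, eval_add, eval_add, eval_add]
    linear_combination hp + hq
  | monomial n a =>
    induction n with
    | zero => simp; ring
    | succ n ih =>
      have h1 : Polynomial.aeval (T x) (monomial (n + 1) a)
          = T x * Polynomial.aeval (T x) (monomial n a) := by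
        rw [aeval_monomial, aeval_monomial, pow_succ', ← mul_assoc, ← mul_assoc,
          Algebra.commutes]
      rw [h1, Module.End.mul_apply, E_T x hx, ih, eval_monomial, eval_monomial]
      ring

theorem T_S (x : ℝ) (hx : x ≠ 0) (f : ℝ[X]) : T x (S x⁻¹ f) = x • S x⁻¹ (T x⁻¹ f) := by
  unfold T
  rw [LinearMap.add_apply, LinearMap.add_apply, map_add, S_mx, LinearMap.smul_apply, dv_S,
    LinearMap.smul_apply, map_smul]
  rw [smul_add, smul_smul, smul_smul, mul_inv_cancel₀ hx, one_smul, one_smul]

/-! ### the recursion for `C` -/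

/-- sums over words -/
noncomputable def Sw (x : ℝ) (k r : ℕ) : ℝ := ((words r).map (fun w => val (P w k) x)).sum

theorem Sw_zero_zero (x : ℝ) : Sw x 0 0 = 1 := by simp [Sw, words, P, val]
theorem Sw_succ_zero (x : ℝ) (k : ℕ) : Sw x (k + 1) 0 = 0 := by simp [Sw, words, P, val]

theorem Sw_zero_succ (x : ℝ) (r : ℕ) : Sw x 0 (r + 1) = 2 * Sw x 0 r + Sw x 1 r := by
  have key : ∀ l : List (List Bool),
      ((l.map (fun w => false :: w) ++ l.map (fun w => true :: w)).map
        (fun w => val (P w 0) x)).sum
      = 2 * (l.map (fun w => val (P w 0) x)).sum + (l.map (fun w => val (P w 1) x)).sum := by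
    intro l
    rw [List.map_append, List.sum_append, List.map_map, List.map_map]
    induction l with
    | nil => simp
    | cons w l ih =>
      simp only [List.map_cons, List.sum_cons, Function.comp] at ih ⊢
      have h1 : val (P (false :: w) 0) x = val (P w 0) x + val (P w 1) x := by
        rw [P]; simp [val]
      have h2 : val (P (true :: w) 0) x = val (P w 0) x := by rw [P]
      rw [h1, h2]
      linarith
  exact key (words r)

theorem Sw_succ_succ (x : ℝ) (k r : ℕ) :
    Sw x (k + 1) (r + 1) = 2 * Sw x (k + 1) r + Sw x (k + 2) r + x * Sw x k r := by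
  have key : ∀ l : List (List Bool),
      ((l.map (fun w => false :: w) ++ l.map (fun w => true :: w)).map
        (fun w => val (P w (k + 1)) x)).sum
      = 2 * (l.map (fun w => val (P w (k + 1)) x)).sum + (l.map (fun w => val (P w (k + 2)) x)).sum
        + x * (l.map (fun w => val (P w k) x)).sum := by
    intro l
    rw [List.map_append, List.sum_append, List.map_map, List.map_map]
    induction l with
    | nil => simp
    | cons w l ih =>
      simp only [List.map_cons, List.sum_cons, Function.comp] at ih ⊢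
      have h1 : val (P (false :: w) (k + 1)) x = val (P w (k + 1)) x + val (P w (k + 2)) x := by
        rw [P]; simp [val]
      have h2 : val (P (true :: w) (k + 1)) x = val (P w (k + 1)) x + x * val (P w k) x := by
        rw [P]; simp [val]
      rw [h1, h2]
      linarith
  exact key (words r)

theorem Sw_eq (x : ℝ) (r : ℕ) : Sw x 0 r = val (R 0 r) x := by
  have key : ∀ l : List (List Bool), (l.map (fun w => val (P w 0) x)).sum
      = val ((l.map (fun w => N (w ++ alt 0))).sum) x := by
    intro l
    induction l with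
    | nil => simp [val]
    | cons w l ih =>
      rw [List.map_cons, List.sum_cons, ih, List.map_cons, List.sum_cons]
      simp [val, N, alt]
  exact key (words r)

noncomputable def Fs (x : ℝ) (k : ℕ) : PowerSeries ℝ := PowerSeries.mk (Sw x k)

theorem Fs_zero (x : ℝ) : Fs x 0 = 1 + PowerSeries.X * (2 * Fs x 0 + Fs x 1) := by
  have h2 : (2 : PowerSeries ℝ) = PowerSeries.C 2 := (map_ofNat (PowerSeries.C (R := ℝ)) 2).symm
  ext n
  cases n with
  | zero => simp [Fs, Sw_zero_zero]
  | succ n =>
    rw [map_add, PowerSeries.coeff_succ_X_mul, map_add, h2, PowerSeries.coeff_C_mul]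
    simp [Fs, Sw_zero_succ, PowerSeries.coeff_one]

theorem Fs_succ (x : ℝ) (k : ℕ) : Fs x (k + 1)
    = PowerSeries.X * (2 * Fs x (k + 1) + Fs x (k + 2) + PowerSeries.C x * Fs x k) := by
  have h2 : (2 : PowerSeries ℝ) = PowerSeries.C 2 := (map_ofNat (PowerSeries.C (R := ℝ)) 2).symm
  ext n
  cases n with
  | zero => simp [Fs, Sw_succ_zero]
  | succ n =>
    rw [PowerSeries.coeff_succ_X_mul, map_add, map_add, h2, PowerSeries.coeff_C_mul,
      PowerSeries.coeff_C_mul]
    simp [Fs, Sw_succ_succ]

noncomputable def Ds (x : ℝ) (k : ℕ) : PowerSeries ℝ :=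
  Fs x (k + 1) - PowerSeries.C x * PowerSeries.X * Fs x 0 * Fs x k

theorem Ds_eq (x : ℝ) (k : ℕ) : Ds x k = PowerSeries.X * (2 * Ds x k + Ds x (k + 1)
    + PowerSeries.C x * PowerSeries.X * (Fs x 0 * Ds x k - Ds x 0 * Fs x k)) := by
  have h0 := Fs_zero x
  have h1 := Fs_succ x k
  unfold Ds
  simp only [zero_add]
  linear_combination h1 - PowerSeries.C x * PowerSeries.X * Fs x k * h0

theorem Ds_dvd (x : ℝ) (n : ℕ) : ∀ k, (PowerSeries.X : PowerSeries ℝ) ^ n ∣ Ds x k := by
  induction n with
  | zero => intro k; simp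
  | succ n ih =>
    intro k
    rw [Ds_eq, pow_succ']
    apply mul_dvd_mul_left
    apply dvd_add
    · exact dvd_add (dvd_mul_of_dvd_right (ih k) _) (ih (k + 1))
    · apply dvd_mul_of_dvd_right
      exact dvd_sub (dvd_mul_of_dvd_right (ih k) _) (dvd_mul_of_dvd_left (ih 0) _)

theorem Ds_zero (x : ℝ) (k : ℕ) : Ds x k = 0 := by
  ext n
  have := Ds_dvd x (n + 1) k
  rw [PowerSeries.X_pow_dvd_iff] at this
  rw [this n (by omega)]
  simp

theorem Fs_quad (x : ℝ) : Fs x 0 = 1 + 2 * PowerSeries.X * Fs x 0
    + PowerSeries.C x * PowerSeries.X ^ 2 * Fs x 0 ^ 2 := by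
  have h0 := Fs_zero x
  have h1 := Ds_zero x 0
  unfold Ds at h1
  simp only [zero_add] at h1
  linear_combination h0 + PowerSeries.X * h1

noncomputable def Cs (x : ℝ) : PowerSeries ℝ := PowerSeries.mk (fun r => val (C r) x)

theorem val_C_succ (x : ℝ) (d : ℕ) : val (C (d + 1)) x
    = val (C d) x + x * ∑ i ∈ Finset.range d, val (C i) x * Sw x 0 (d - 1 - i) := by
  rw [C, Finset.sum_fin_eq_sum_range]
  unfold val
  simp only [Polynomial.map_add, Polynomial.map_mul, map_X, eval_add, eval_mul, eval_X,
    Polynomial.map_sum, eval_finsetSum]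
  congr 2
  apply Finset.sum_congr rfl
  intro i hi
  rw [dif_pos (Finset.mem_range.1 hi), Sw_eq]
  simp [val]

theorem Cs_eq (x : ℝ) : Cs x * (1 - PowerSeries.X - PowerSeries.C x * PowerSeries.X ^ 2 * Fs x 0)
    = 1 := by
  have h : Cs x = 1 + PowerSeries.X * Cs x
      + PowerSeries.C x * (PowerSeries.X * (PowerSeries.X * (Cs x * Fs x 0))) := by
    ext n
    cases n with
    | zero =>
      have : val (C 0) x = 1 := by rw [C]; simp [val]
      simp [Cs, this]
    | succ d =>
      rw [map_add, map_add, PowerSeries.coeff_succ_X_mul, PowerSeries.coeff_C_mul,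
        PowerSeries.coeff_succ_X_mul]
      have h1 : (PowerSeries.coeff (d + 1)) (Cs x) = val (C (d + 1)) x := by simp [Cs]
      have h2 : (PowerSeries.coeff d) (Cs x) = val (C d) x := by simp [Cs]
      rw [h1, h2, val_C_succ]
      have h3 : (PowerSeries.coeff d) (PowerSeries.X * (Cs x * Fs x 0))
          = ∑ i ∈ Finset.range d, val (C i) x * Sw x 0 (d - 1 - i) := by
        cases d with
        | zero => simp
        | succ e =>
          rw [PowerSeries.coeff_succ_X_mul, PowerSeries.coeff_mul,
            Finset.Nat.sum_antidiagonal_eq_sum_range_succ_mk]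
          apply Finset.sum_congr rfl
          intro i _
          simp [Cs, Fs]
      rw [h3]
      simp [PowerSeries.coeff_one]
  linear_combination h

theorem Cs_rec (x : ℝ) (r : ℕ) :
    val (C (r + 1)) x = (1 - x) * val (C r) x + x * val (R 0 r) x := by
  have h1 := Cs_eq x
  have h2 := Fs_quad x
  have h3 : Cs x = PowerSeries.X * Cs x - PowerSeries.C x * (PowerSeries.X * Cs x) + 1
      + PowerSeries.C x * (PowerSeries.X * Fs x 0) := by
    linear_combination (1 + PowerSeries.C x * PowerSeries.X * Fs x 0) * h1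
      - PowerSeries.C x * PowerSeries.X * Cs x * h2
  have h4 := congrArg (PowerSeries.coeff (r + 1)) h3
  rw [map_add, map_add, map_sub, PowerSeries.coeff_succ_X_mul, PowerSeries.coeff_C_mul,
    PowerSeries.coeff_succ_X_mul, PowerSeries.coeff_C_mul, PowerSeries.coeff_succ_X_mul] at h4
  simp only [Cs, Fs, PowerSeries.coeff_mk, PowerSeries.coeff_one] at h4
  rw [h4, Sw_eq]
  simp
  ring

/-! ### assembly -/

theorem eval_one_A (x : ℝ) (f : ℝ[X]) :
    eval 1 ((algebraMap ℝ (Module.End ℝ ℝ[X]) (1 + x) - T x) f) = x * eval 0 f := by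
  rw [LinearMap.sub_apply, eval_sub, eval_T x 1 one_ne_zero, Module.algebraMap_end_apply,
    eval_smul, smul_eq_mul]
  ring

theorem eval_one_B (x : ℝ) (f : ℝ[X]) :
    eval 1 ((algebraMap ℝ (Module.End ℝ ℝ[X]) 2 - T x) f)
      = (1 - x) * eval 1 f + x * eval 0 f := by
  rw [LinearMap.sub_apply, eval_sub, eval_T x 1 one_ne_zero, Module.algebraMap_end_apply,
    eval_smul, smul_eq_mul]
  ring

theorem fund1' (x : ℝ) (j r : ℕ) :
    eval 1 (((algebraMap ℝ (Module.End ℝ ℝ[X]) (1 + x) - T x) ^ j
      * (algebraMap ℝ (Module.End ℝ ℝ[X]) 2 - T x) ^ r) 1) = val (G j r) x := by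
  have e2 : algebraMap ℝ (Module.End ℝ ℝ[X]) 2 = 2 := map_ofNat _ 2
  cases j with
  | zero =>
    rw [G, pow_zero, one_mul]
    induction r with
    | zero =>
      rw [C]; simp [val]
    | succ r ih =>
      rw [pow_succ', Module.End.mul_apply, eval_one_B, ih, Cs_rec]
      have h0 := eval_zero_v x 0 r
      rw [pow_zero, one_mul] at h0
      rw [e2, h0]
  | succ j =>
    rw [G, pow_succ', mul_assoc, Module.End.mul_apply, eval_one_A]
    have h0 := eval_zero_v x j r
    rw [e2, h0]
    simp [val]

theorem fund1 (x : ℝ) (j r : ℕ) :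
    Phi x ((Polynomial.C (1 + x) - X) ^ j * (2 - X) ^ r) = val (G j r) x := by
  have e2 : (2 : ℝ[X]) = Polynomial.C 2 := (map_ofNat (Polynomial.C (R := ℝ)) 2).symm
  rw [e2, Phi_apply, aeval_T, fund1']

theorem S_A (x : ℝ) (hx : x ≠ 0) (a : ℝ) (n : ℕ) (f : ℝ[X]) :
    S x⁻¹ (x ^ n • ((algebraMap ℝ (Module.End ℝ ℝ[X]) a - T x⁻¹) ^ n) f)
      = ((algebraMap ℝ (Module.End ℝ ℝ[X]) (x * a) - T x) ^ n) (S x⁻¹ f) := by
  induction n with
  | zero => simp
  | succ n ih =>
    rw [pow_succ', pow_succ', pow_succ', Module.End.mul_apply, Module.End.mul_apply, ← ih,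
      LinearMap.sub_apply, LinearMap.sub_apply, Module.algebraMap_end_apply,
      Module.algebraMap_end_apply, map_smul, map_smul, map_smul, T_S x hx, map_sub, map_smul]
    module

theorem eval_x_S (x : ℝ) (hx : x ≠ 0) (g : ℝ[X]) : eval x (S x⁻¹ g) = eval 1 g := by
  rw [S_apply, eval_comp]
  simp [hx]

theorem fund2 (x : ℝ) (hx : x ≠ 0) (j r : ℕ) :
    x ^ (2 * j + r + 1) * val (G j r) x⁻¹ =
      Phi x ((Polynomial.C x * (Polynomial.C (1 + x) - X)) ^ j * (Polynomial.C (2 * x) - X) ^ r) +
        (if j = 0 then (x - 1) ^ (r + 1) else 0) := by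
  have hS : S x⁻¹ (x ^ (j + r) • ((algebraMap ℝ (Module.End ℝ ℝ[X]) (1 + x⁻¹) - T x⁻¹) ^ j
      * (algebraMap ℝ (Module.End ℝ ℝ[X]) 2 - T x⁻¹) ^ r) 1)
      = ((algebraMap ℝ (Module.End ℝ ℝ[X]) (1 + x) - T x) ^ j
        * (algebraMap ℝ (Module.End ℝ ℝ[X]) (2 * x) - T x) ^ r) 1 := by
    have h1 := S_A x hx (1 + x⁻¹) j
      (x ^ r • ((algebraMap ℝ (Module.End ℝ ℝ[X]) 2 - T x⁻¹) ^ r) 1)
    rw [S_A x hx 2 r, S_one] at h1
    have e1 : x * (1 + x⁻¹) = 1 + x := by
      field_simp
      ring
    rw [e1, mul_comm x 2] at h1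
    rw [Module.End.mul_apply, Module.End.mul_apply, ← h1]
    congr 1
    rw [map_smul, smul_smul, pow_add]
  have hev := congrArg (eval x) hS
  rw [eval_x_S x hx, eval_smul, smul_eq_mul, fund1' x⁻¹] at hev
  have hE := E_aeval x hx ((Polynomial.C (1 + x) - X) ^ j * (Polynomial.C (2 * x) - X) ^ r)
  rw [aeval_T, ← hev] at hE
  have hphi : Phi x ((Polynomial.C x * (Polynomial.C (1 + x) - X)) ^ j
      * (Polynomial.C (2 * x) - X) ^ r)
      = x ^ j * Phi x ((Polynomial.C (1 + x) - X) ^ j * (Polynomial.C (2 * x) - X) ^ r) := by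
    rw [mul_pow, ← Polynomial.C_pow, mul_assoc, ← smul_eq_C_mul, map_smul, smul_eq_mul]
  rw [hphi, Phi_apply, aeval_T]
  have hp : eval (1 + x) ((Polynomial.C (1 + x) - X) ^ j * (Polynomial.C (2 * x) - X) ^ r)
      = 0 ^ j * (x - 1) ^ r := by
    simp only [eval_mul, eval_pow, eval_sub, eval_C, eval_X, sub_self]
    congr 2
    ring
  rw [hp] at hE
  have h5 : x ^ (2 * j + r + 1) = x ^ j * (x * x ^ (j + r)) := by ring
  rw [h5]
  split_ifs with h
  · subst h
    simp only [pow_zero, one_mul, zero_add] at hE ⊢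
    linear_combination hE
  · rw [zero_pow h] at hE
    linear_combination x ^ j * hE

end Pool.R142.TG.PC

namespace Pool.R142.TG

theorem stmC : StmC :=
  ⟨PC.deg_G, fun x hx => ⟨PC.Phi x, PC.fund1 x, PC.fund2 x hx⟩⟩

end Pool.R142.TG
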