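import Pool.Agent.R142.TG.Stm

/-! Piece D1 for MP_41b5b1_co: intervals in simple Eulerian posets. -/

namespace Pool.R142.TG.PD1

variable {L : Type} [PartialOrder L] [BoundedOrder L] [Fintype L] {rk : L → ℕ}

theorem mono (h : IsSimpleEulerian L rk) : ∀ a b : L, a < b → rk a < rk b := by
  intro a b
  induction a using WellFoundedGT.induction with
  | _ a ih =>
    intro hab
    obtain ⟨x, hax, hxb⟩ := exists_covBy_le_of_lt hab
    have h1 := h.rk_covBy a x hax
    rcases hxb.eq_or_lt with rfl | hlt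
    · omega
    · have := ih x hax.lt hlt
      omega

theorem rk_zero (h : IsSimpleEulerian L rk) (a : L) (ha : rk a = 0) : a = ⊥ := by
  by_contra hne
  have := mono h ⊥ a (bot_lt_iff_ne_bot.2 hne)
  omega

theorem rk_phi (h : IsSimpleEulerian L rk) {v : L} (hv : rk v = 1) {n : ℕ}
    (φ : Set.Icc v (⊤ : L) ≃o Finset (Fin n)) :
    ∀ (c : L) (hc : v ≤ c), rk c = 1 + (φ ⟨c, hc, le_top⟩).card := by
  intro c
  induction c using WellFoundedLT.induction with
  | _ c ih =>
    intro hc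
    rcases hc.eq_or_lt with rfl | hlt
    · have hbot : φ ⟨v, hc, le_top⟩ = ∅ := by
        have h1 : (⟨v, hc, le_top⟩ : Set.Icc v (⊤ : L)) ≤ φ.symm ∅ := (φ.symm ∅).2.1
        have h2 := φ.monotone h1
        rw [φ.apply_symm_apply] at h2
        exact Finset.subset_empty.1 h2
      rw [hbot, hv]
      simp
    · obtain ⟨d, hvd, hdc⟩ := exists_le_covBy_of_lt hlt
      have h1 := h.rk_covBy d c hdc
      have h2 := ih d hdc.lt hvd
      have h3 : (⟨d, hvd, le_top⟩ : Set.Icc v (⊤ : L)) ⋖ ⟨c, hc, le_top⟩ := by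
        refine ⟨hdc.lt, ?_⟩
        rintro ⟨e, he⟩ h4 h5
        exact hdc.2 (show d < e from h4) (show e < c from h5)
      have h4 : φ ⟨d, hvd, le_top⟩ ⋖ φ ⟨c, hc, le_top⟩ := (apply_covBy_apply_iff φ).2 h3
      have h5 := h4.card_finset
      have h6 := Order.covBy_iff_add_one_eq.1 h5
      omega

theorem count (h : IsSimpleEulerian L rk) (a b : L) (hab : a ≤ b) (ha : 1 ≤ rk a) (i : ℕ) :
    Nat.card {c : L // a ≤ c ∧ c ≤ b ∧ rk c = rk a + i} = (rk b - rk a).choose i := by
  classical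
  have hne : (⊥ : L) < a := by
    rw [bot_lt_iff_ne_bot]
    rintro rfl
    have := h.rk_bot
    omega
  obtain ⟨v, hv1, hva⟩ := exists_covBy_le_of_lt hne
  have hrv : rk v = 1 := by rw [h.rk_covBy _ _ hv1, h.rk_bot]
  obtain ⟨n, ⟨φ⟩⟩ := h.simple v hrv
  have hr := rk_phi h hrv φ
  have hvb : v ≤ b := hva.trans hab
  set A := φ ⟨a, hva, le_top⟩ with hA
  set B := φ ⟨b, hvb, le_top⟩ with hB
  have hrA : rk a = 1 + A.card := hr a hva
  have hrB : rk b = 1 + B.card := hr b hvb
  have hAB : A ⊆ B := φ.monotone (show (⟨a, hva, le_top⟩ : Set.Icc v (⊤ : L)) ≤ ⟨b, hvb, le_top⟩ from hab)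
  have hcard : (B \ A).card = rk b - rk a := by
    rw [Finset.card_sdiff_of_subset hAB, hrA, hrB]
    omega
  let f : {c : L // a ≤ c ∧ c ≤ b ∧ rk c = rk a + i} → {t // t ∈ Finset.powersetCard i (B \ A)} :=
    fun c => ⟨φ ⟨c.1, hva.trans c.2.1, le_top⟩ \ A, by
      have h1 : A ⊆ φ ⟨c.1, hva.trans c.2.1, le_top⟩ := φ.monotone c.2.1
      have h2 : φ ⟨c.1, hva.trans c.2.1, le_top⟩ ⊆ B := φ.monotone c.2.2.1
      rw [Finset.mem_powersetCard]
      refine ⟨Finset.sdiff_subset_sdiff h2 le_rfl, ?_⟩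
      have h3 : rk c.1 = 1 + (φ ⟨c.1, hva.trans c.2.1, le_top⟩).card := hr c.1 (hva.trans c.2.1)
      have h5 := c.2.2.2
      have h6 := Finset.card_le_card h1
      rw [Finset.card_sdiff_of_subset h1]
      omega⟩
  have hf : Function.Bijective f := by
    constructor
    · rintro ⟨c, hc1, hc2, hc3⟩ ⟨d, hd1, hd2, hd3⟩ hcd
      have h1 : A ⊆ φ ⟨c, hva.trans hc1, le_top⟩ := φ.monotone hc1
      have h2 : A ⊆ φ ⟨d, hva.trans hd1, le_top⟩ := φ.monotone hd1
      have h3 : φ ⟨c, hva.trans hc1, le_top⟩ \ A = φ ⟨d, hva.trans hd1, le_top⟩ \ A :=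
        congrArg Subtype.val hcd
      have h4 : φ ⟨c, hva.trans hc1, le_top⟩ = φ ⟨d, hva.trans hd1, le_top⟩ := by
        rw [← Finset.sdiff_union_of_subset h1, ← Finset.sdiff_union_of_subset h2, h3]
      have h5 := φ.injective h4
      have h6 : c = d := congrArg Subtype.val h5
      subst h6
      rfl
    · rintro ⟨t, ht⟩
      rw [Finset.mem_powersetCard] at ht
      obtain ⟨ht1, ht2⟩ := ht
      set c := φ.symm (A ∪ t) with hc
      have hφc : φ c = A ∪ t := φ.apply_symm_apply _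
      have hdis : Disjoint A t := by
        rw [Finset.disjoint_left]
        intro x hx hxt
        exact (Finset.mem_sdiff.1 (ht1 hxt)).2 hx
      have h1 : a ≤ c.1 := by
        have : (⟨a, hva, le_top⟩ : Set.Icc v (⊤ : L)) ≤ c := by
          rw [← φ.le_iff_le, hφc]
          exact Finset.subset_union_left
        exact this
      have h2 : c.1 ≤ b := by
        have : c ≤ (⟨b, hvb, le_top⟩ : Set.Icc v (⊤ : L)) := by
          rw [← φ.le_iff_le, hφc]
          exact Finset.union_subset hAB (ht1.trans Finset.sdiff_subset)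
        exact this
      have h3 : rk c.1 = rk a + i := by
        have h7 : rk c.1 = 1 + (φ c).card := hr c.1 c.2.1
        rw [hφc, Finset.card_union_of_disjoint hdis, ht2] at h7
        omega
      refine ⟨⟨c.1, h1, h2, h3⟩, ?_⟩
      apply Subtype.ext
      change φ ⟨c.1, hva.trans h1, le_top⟩ \ A = t
      have : φ ⟨c.1, hva.trans h1, le_top⟩ = A ∪ t := hφc
      rw [this, Finset.union_sdiff_cancel_left hdis]
  rw [Nat.card_eq_of_bijective f hf, Nat.card_eq_fintype_card, Fintype.card_coe,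
    Finset.card_powersetCard, hcard]

end Pool.R142.TG.PD1

namespace Pool.R142.TG

theorem stmD1 : StmD1 := by
  intro L _ _ _ rk h
  exact ⟨PD1.mono h, PD1.rk_zero h, fun a b hab ha i => PD1.count h a b hab ha i⟩

end Pool.R142.TG
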