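import Pool.Agent.R142.TG.Stm

set_option autoImplicit false

/-! Piece D2: Dehn-Sommerville equations and existence of the `γ`-vector. -/

namespace Pool.R142.TG

open Polynomial

namespace D2

lemma reflect_sum' {ι : Type*} (N : ℕ) (s : Finset ι) (f : ι → ℤ[X]) :
    reflect N (∑ i ∈ s, f i) = ∑ i ∈ s, reflect N (f i) := by
  classical
  induction s using Finset.induction_on with
  | empty => simp
  | insert a s ha ih => rw [Finset.sum_insert ha, Finset.sum_insert ha, reflect_add, ih]

lemma reflect_one_lin : reflect 1 (X - 1 : ℤ[X]) = 1 - X := by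
  have h1 : (X - 1 : ℤ[X]) = X + Polynomial.C (-1) := by simp [sub_eq_add_neg]
  rw [h1, reflect_add, reflect_one_X, reflect_C]
  simp [sub_eq_add_neg]

lemma natDegree_lin : (X - 1 : ℤ[X]).natDegree ≤ 1 := by
  have := natDegree_X_sub_C_le (1 : ℤ)
  simpa using this

lemma reflect_pow' (i : ℕ) : reflect i ((X - 1 : ℤ[X]) ^ i) = (1 - X) ^ i := by
  induction i with
  | zero => simp [reflect_one]
  | succ i ih =>
    have h1 : ((X - 1 : ℤ[X]) ^ i).natDegree ≤ i := by
      have := natDegree_pow_le_of_le i natDegree_lin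
      simpa using this
    rw [pow_succ, reflect_mul _ _ h1 natDegree_lin, ih, pow_succ, reflect_one_lin]

lemma reflect_pow {i e : ℕ} (hi : i ≤ e) :
    reflect e ((X - 1 : ℤ[X]) ^ i) = (1 - X) ^ i * X ^ (e - i) := by
  have h1 : ((X - 1 : ℤ[X]) ^ i).natDegree ≤ i := by
    have := natDegree_pow_le_of_le i natDegree_lin
    simpa using this
  have h2 : (1 : ℤ[X]).natDegree ≤ e - i := by simp
  have h3 := reflect_mul ((X - 1 : ℤ[X]) ^ i) 1 h1 h2
  rw [mul_one, reflect_pow', reflect_one, show i + (e - i) = e by omega] at h3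
  exact h3

/-- Palindromic polynomials have a `γ`-expansion. -/
lemma gamma_exists (e : ℕ) : ∀ H : ℤ[X], (∀ i ≤ e, H.coeff i = H.coeff (e - i)) →
    (∀ i, e < i → H.coeff i = 0) →
    ∃ γ : ℕ → ℤ, H =
      ∑ j ∈ Finset.range (e / 2 + 1), Polynomial.C (γ j) * X ^ j * (1 + X) ^ (e - 2 * j) := by
  induction e using Nat.strong_induction_on with
  | _ e ih =>
    intro H hpal hdeg
    rcases Nat.lt_or_ge e 2 with he | he
    · refine ⟨fun _ => H.coeff 0, ?_⟩
      have h2 : e / 2 + 1 = 1 := by omega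
      rw [h2, Finset.sum_range_one]
      ext i
      rw [mul_assoc, coeff_C_mul, pow_zero, one_mul, Nat.mul_zero, Nat.sub_zero,
        coeff_one_add_X_pow]
      rcases Nat.lt_or_ge e i with hi | hi
      · rw [hdeg i hi, Nat.choose_eq_zero_of_lt hi]
        simp
      · have h3 : e = 0 ∨ e = 1 := by omega
        rcases h3 with rfl | rfl
        · have : i = 0 := by omega
          subst this
          simp
        · have : i = 0 ∨ i = 1 := by omega
          rcases this with rfl | rfl
          · simp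
          · have := hpal 1 le_rfl
            simp at this
            simp [this]
    · set D : ℤ[X] := H - Polynomial.C (H.coeff 0) * (1 + X) ^ e with hD
      have hDc : ∀ i, D.coeff i = H.coeff i - H.coeff 0 * (e.choose i : ℤ) := by
        intro i
        rw [hD, coeff_sub, coeff_C_mul, coeff_one_add_X_pow]
      have hD0 : D.coeff 0 = 0 := by rw [hDc]; simp
      have hpal0 : H.coeff e = H.coeff 0 := by
        have := hpal e le_rfl
        simpa using this
      obtain ⟨γ, hγ⟩ := ih (e - 2) (by omega) D.divX (by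
        intro i hi
        have e1 : e - 2 - i + 1 = e - (i + 1) := by omega
        rw [coeff_divX, coeff_divX, hDc, hDc, hpal (i + 1) (by omega),
          ← Nat.choose_symm (show i + 1 ≤ e by omega), e1]) (by
        intro i hi
        rw [coeff_divX, hDc]
        rcases Nat.lt_or_ge e (i + 1) with h | h
        · rw [hdeg _ h, Nat.choose_eq_zero_of_lt h]
          simp
        · have : i + 1 = e := by omega
          rw [this, Nat.choose_self, hpal0]
          simp)
      refine ⟨fun j => if j = 0 then H.coeff 0 else γ (j - 1), ?_⟩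
      have h3 : H = D.divX * X + Polynomial.C (H.coeff 0) * (1 + X) ^ e := by
        have := divX_mul_X_add D
        rw [hD0, C_0, add_zero] at this
        rw [this, hD]
        ring
      have h4 : e / 2 + 1 = ((e - 2) / 2 + 1) + 1 := by omega
      rw [h4, Finset.sum_range_succ']
      conv_lhs => rw [h3, hγ]
      rw [Finset.sum_mul]
      congr 1
      · refine Finset.sum_congr rfl fun j _ => ?_
        have e2 : (fun j : ℕ => if j = 0 then H.coeff 0 else γ (j - 1)) (j + 1) = γ j := by
          simp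
        rw [e2, show e - 2 * (j + 1) = e - 2 - 2 * j by omega]
        ring
      · simp

end D2

open D2 in
theorem stmD2 : StmD2 := by
  classical
  intro hD1 L _ _ _ rk hL b hb
  obtain ⟨hmono, hzero, hcount⟩ := hD1 L rk hL
  set e := rk b - 1 with he
  have hle : ∀ a c : L, a ≤ c → rk a ≤ rk c := by
    intro a c hac
    rcases hac.eq_or_lt with rfl | h
    · exact le_rfl
    · exact (hmono a c h).le
  set A : L → Finset L := fun c => Finset.univ.filter fun a => a ≤ c ∧ 1 ≤ rk a with hA
  have hmemA : ∀ a c, a ∈ A c ↔ a ≤ c ∧ 1 ≤ rk a := by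
    intro a c
    simp [hA]
  -- Euler's relation
  have euler : ∀ c : L, 1 ≤ rk c → ∑ a ∈ A c, (-1 : ℤ) ^ (rk a - 1) = 1 := by
    intro c hc
    have hbot : (⊥ : L) < c := by
      rw [bot_lt_iff_ne_bot]
      rintro rfl
      rw [hL.rk_bot] at hc
      omega
    have h1 := hL.eulerian ⊥ c hbot
    have h2 : (Finset.univ.filter fun a : L => ⊥ ≤ a ∧ a ≤ c) = insert ⊥ (A c) := by
      ext a
      rw [Finset.mem_filter, Finset.mem_insert, hmemA]
      constructor
      · rintro ⟨-, -, h⟩
        rcases Nat.eq_zero_or_pos (rk a) with h0 | h0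
        · exact Or.inl (hzero a h0)
        · exact Or.inr ⟨h, h0⟩
      · rintro (rfl | ⟨h, -⟩)
        · exact ⟨Finset.mem_univ _, le_rfl, bot_le⟩
        · exact ⟨Finset.mem_univ _, bot_le, h⟩
    have h3 : (⊥ : L) ∉ A c := by
      rw [hmemA, hL.rk_bot]
      omega
    have h4 : ∑ a ∈ Finset.univ.filter (fun a : L => ⊥ ≤ a ∧ a ≤ c), (-1 : ℤ) ^ rk a = 0 := by
      convert h1
    rw [h2, Finset.sum_insert h3, hL.rk_bot, pow_zero] at h4
    have h5 : ∑ a ∈ A c, (-1 : ℤ) ^ rk a = -∑ a ∈ A c, (-1 : ℤ) ^ (rk a - 1) := by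
      rw [← Finset.sum_neg_distrib]
      refine Finset.sum_congr rfl fun a ha => ?_
      have h6 := ((hmemA a c).1 ha).2
      obtain ⟨k, hk⟩ : ∃ k, rk a = k + 1 := ⟨rk a - 1, by omega⟩
      rw [hk, Nat.add_sub_cancel, pow_succ]
      ring
    rw [h5] at h4
    linarith
  -- the sum over an interval
  have interval : ∀ a : L, a ≤ b → 1 ≤ rk a →
      ∑ c ∈ Finset.univ.filter (fun c : L => a ≤ c ∧ c ≤ b), (X - 1 : ℤ[X]) ^ (rk c - 1) =
        (X - 1) ^ (rk a - 1) * X ^ (rk b - rk a) := by
    intro a hab ha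
    have h1 : ∀ c ∈ Finset.univ.filter (fun c : L => a ≤ c ∧ c ≤ b),
        rk c - rk a ∈ Finset.range (rk b - rk a + 1) := by
      intro c hc
      rw [Finset.mem_filter] at hc
      rw [Finset.mem_range]
      have := hle c b hc.2.2
      omega
    rw [← Finset.sum_fiberwise_of_maps_to h1]
    have h2 : ∀ i ∈ Finset.range (rk b - rk a + 1),
        ∑ c ∈ (Finset.univ.filter (fun c : L => a ≤ c ∧ c ≤ b)).filter
          (fun c => rk c - rk a = i), (X - 1 : ℤ[X]) ^ (rk c - 1) =
        (X - 1) ^ (rk a - 1) * ((X - 1) ^ i * 1 ^ (rk b - rk a - i) *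
          ((rk b - rk a).choose i : ℤ[X])) := by
      intro i _
      have h3 : ∑ c ∈ (Finset.univ.filter (fun c : L => a ≤ c ∧ c ≤ b)).filter
          (fun c => rk c - rk a = i), (X - 1 : ℤ[X]) ^ (rk c - 1) =
          ∑ _c ∈ (Finset.univ.filter (fun c : L => a ≤ c ∧ c ≤ b)).filter
          (fun c => rk c - rk a = i), (X - 1 : ℤ[X]) ^ (rk a - 1 + i) := by
        refine Finset.sum_congr rfl fun c hc => ?_
        rw [Finset.mem_filter, Finset.mem_filter] at hc
        have := hle a c hc.1.2.1
        congr 1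
        omega
      have h4 : ((Finset.univ.filter (fun c : L => a ≤ c ∧ c ≤ b)).filter
          (fun c => rk c - rk a = i)).card = (rk b - rk a).choose i := by
        rw [← hcount a b hab ha i, Nat.card_eq_fintype_card, Fintype.card_subtype]
        congr 1
        ext c
        simp only [Finset.mem_filter, Finset.mem_univ, true_and]
        constructor
        · rintro ⟨⟨h5, h6⟩, h7⟩
          have := hle a c h5
          exact ⟨h5, h6, by omega⟩
        · rintro ⟨h5, h6, h7⟩
          exact ⟨⟨h5, h6⟩, by omega⟩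
      rw [h3, Finset.sum_const, h4, nsmul_eq_mul, pow_add]
      ring
    rw [Finset.sum_congr rfl h2, ← Finset.mul_sum, ← add_pow]
    congr 2
    ring
  -- the polynomial `H`
  set H : ℤ[X] := ∑ c ∈ A b, (X - 1 : ℤ[X]) ^ (rk c - 1) with hH
  have hH1 : ∑ i ∈ Finset.range (rk b - 1 + 1), Polynomial.C (fnum rk b i : ℤ) * (X - 1) ^ i = H := by
    have h1 : ∀ c ∈ A b, rk c - 1 ∈ Finset.range (rk b - 1 + 1) := by
      intro c hc
      have := hle c b ((hmemA c b).1 hc).1
      rw [Finset.mem_range]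
      omega
    rw [hH, ← Finset.sum_fiberwise_of_maps_to h1]
    refine Finset.sum_congr rfl fun i _ => ?_
    have h3 : ∑ c ∈ (A b).filter (fun c => rk c - 1 = i), (X - 1 : ℤ[X]) ^ (rk c - 1) =
        ∑ _c ∈ (A b).filter (fun c => rk c - 1 = i), (X - 1 : ℤ[X]) ^ i := by
      refine Finset.sum_congr rfl fun c hc => ?_
      rw [(Finset.mem_filter.1 hc).2]
    have h4 : ((A b).filter (fun c => rk c - 1 = i)).card = fnum rk b i := by
      unfold fnum
      congr 1
      ext c
      rw [Finset.mem_filter, hmemA, Finset.mem_filter]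
      constructor
      · rintro ⟨⟨h5, h6⟩, h7⟩
        exact ⟨Finset.mem_univ _, h5, by omega⟩
      · rintro ⟨-, h5, h6⟩
        exact ⟨⟨h5, by omega⟩, by omega⟩
    rw [h3, Finset.sum_const, h4, nsmul_eq_mul]
    simp
  have hH2 : H = ∑ a ∈ A b, (1 - X : ℤ[X]) ^ (rk a - 1) * X ^ (e - (rk a - 1)) := by
    have h1 : H = ∑ c ∈ A b, ∑ a ∈ A c, (-1 : ℤ[X]) ^ (rk a - 1) * (X - 1 : ℤ[X]) ^ (rk c - 1) := by
      rw [hH]
      refine Finset.sum_congr rfl fun c hc => ?_
      have h2 := euler c ((hmemA c b).1 hc).2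
      have h3 : ∑ a ∈ A c, (-1 : ℤ[X]) ^ (rk a - 1) = 1 := by
        have := congrArg (fun z : ℤ => (z : ℤ[X])) h2
        push_cast at this
        exact this
      rw [← Finset.sum_mul, h3, one_mul]
    have h2 : ∑ c ∈ A b, ∑ a ∈ A c, (-1 : ℤ[X]) ^ (rk a - 1) * (X - 1 : ℤ[X]) ^ (rk c - 1) =
        ∑ a ∈ A b, ∑ c ∈ Finset.univ.filter (fun c : L => a ≤ c ∧ c ≤ b),
          (-1 : ℤ[X]) ^ (rk a - 1) * (X - 1 : ℤ[X]) ^ (rk c - 1) := by
      apply Finset.sum_comm'
      intro c a
      rw [hmemA, hmemA, hmemA, Finset.mem_filter]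
      constructor
      · rintro ⟨⟨h1, h2⟩, h3, h4⟩
        exact ⟨⟨Finset.mem_univ _, h3, h1⟩, h3.trans h1, h4⟩
      · rintro ⟨⟨-, h1, h2⟩, h3, h4⟩
        exact ⟨⟨h2, h4.trans (hle a c h1)⟩, h1, h4⟩
    rw [h1, h2]
    refine Finset.sum_congr rfl fun a ha => ?_
    obtain ⟨hab, ha1⟩ := (hmemA a b).1 ha
    rw [← Finset.mul_sum, interval a hab ha1, ← mul_assoc, ← mul_pow]
    have := hle a b hab
    congr 2
    · ring
    · omega
  have hrefl : reflect e H = H := by
    conv_rhs => rw [hH2]
    rw [hH, reflect_sum']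
    refine Finset.sum_congr rfl fun a ha => ?_
    have := hle a b ((hmemA a b).1 ha).1
    exact reflect_pow (by omega)
  have hdegH : H.natDegree ≤ e := by
    rw [hH]
    apply natDegree_sum_le_of_forall_le
    intro a ha
    have h1 := hle a b ((hmemA a b).1 ha).1
    have h2 : ((X - 1 : ℤ[X]) ^ (rk a - 1)).natDegree ≤ rk a - 1 := by
      have := natDegree_pow_le_of_le (rk a - 1) natDegree_lin
      simpa using this
    omega
  obtain ⟨γ, hγ⟩ := gamma_exists e H (by
    intro i hi
    have := coeff_reflect e H i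
    rw [hrefl, revAt_le hi] at this
    exact this) (by
    intro i hi
    exact coeff_eq_zero_of_natDegree_lt (lt_of_le_of_lt hdegH hi))
  exact ⟨γ, by rw [IsGamma, hH1, hγ]⟩

end Pool.R142.TG
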