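import Pool.Agent.R142.TG.Stm

/-! Piece D3 for MP_41b5b1_co: the face-sum identity. -/

namespace Pool.R142.TG.PD3

open Polynomial

variable {L : Type} [PartialOrder L] [BoundedOrder L] [Fintype L] {rk : L → ℕ}

open Classical in
theorem sum_fnum (hle : ∀ a b : L, a ≤ b → rk a ≤ rk b) (c : L) (hc : 1 ≤ rk c) (g : ℕ → ℝ) :
    ∑ i ∈ Finset.range (rk c - 1 + 1), (fnum rk c i : ℝ) * g i
      = ∑ a ∈ Finset.univ.filter (fun a : L => 1 ≤ rk a ∧ a ≤ c), g (rk a - 1) := by
  rw [← Finset.sum_fiberwise_of_maps_to (s := Finset.univ.filter (fun a : L => 1 ≤ rk a ∧ a ≤ c))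
    (t := Finset.range (rk c - 1 + 1)) (g := fun a => rk a - 1)]
  · apply Finset.sum_congr rfl
    intro i _
    rw [Finset.sum_congr rfl (g := fun _ => g i)
      (fun a ha => by rw [(Finset.mem_filter.1 ha).2]), Finset.sum_const, nsmul_eq_mul]
    congr 2
    unfold fnum
    congr 1
    ext a
    simp only [Finset.mem_filter, Finset.mem_univ, true_and]
    constructor
    · rintro ⟨h1, h2⟩; exact ⟨⟨by omega, h1⟩, by omega⟩
    · rintro ⟨⟨h1, h2⟩, h3⟩; exact ⟨h2, by omega⟩
  · intro a ha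
    simp only [Finset.mem_filter, Finset.mem_univ, true_and] at ha
    have := hle a c ha.2
    rw [Finset.mem_range]
    omega

open Classical in
theorem hom (hle : ∀ a b : L, a ≤ b → rk a ≤ rk b) (c : L) (hc : 1 ≤ rk c) {γ : ℕ → ℤ}
    (hγ : IsGamma rk c γ) (α β : ℝ) (hβ : β ≠ 0) :
    ∑ a ∈ Finset.univ.filter (fun a : L => 1 ≤ rk a ∧ a ≤ c),
      (α - β) ^ (rk a - 1) * β ^ (rk c - rk a)
      = ∑ j ∈ Finset.range ((rk c - 1) / 2 + 1),
        (γ j : ℝ) * ((α * β) ^ j * (α + β) ^ (rk c - 1 - 2 * j)) := by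
  have h1 := congrArg (fun p : ℤ[X] => eval₂ (Int.castRingHom ℝ) (α / β) p) hγ
  simp only [eval₂_finsetSum, eval₂_mul, eval₂_C, eval₂_pow, eval₂_sub, eval₂_add, eval₂_X,
    eval₂_one] at h1
  simp only [eq_intCast, Int.cast_natCast] at h1
  have h2 := sum_fnum (rk := rk) hle c hc (fun i => (α - β) ^ i * β ^ (rk c - 1 - i))
  have h3 : ∑ a ∈ Finset.univ.filter (fun a : L => 1 ≤ rk a ∧ a ≤ c),
      (α - β) ^ (rk a - 1) * β ^ (rk c - rk a)
      = ∑ a ∈ Finset.univ.filter (fun a : L => 1 ≤ rk a ∧ a ≤ c),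
      (fun i => (α - β) ^ i * β ^ (rk c - 1 - i)) (rk a - 1) := by
    apply Finset.sum_congr rfl
    intro a ha
    simp only [Finset.mem_filter, Finset.mem_univ, true_and] at ha
    have : rk c - 1 - (rk a - 1) = rk c - rk a := by omega
    simp only [this]
  rw [h3, ← h2]
  have h4 : ∑ i ∈ Finset.range (rk c - 1 + 1),
      (fnum rk c i : ℝ) * ((α - β) ^ i * β ^ (rk c - 1 - i))
      = β ^ (rk c - 1) * ∑ i ∈ Finset.range (rk c - 1 + 1), (fnum rk c i : ℝ) * (α / β - 1) ^ i := by
    rw [Finset.mul_sum]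
    apply Finset.sum_congr rfl
    intro i hi
    have hi' : i ≤ rk c - 1 := by
      have := Finset.mem_range.1 hi; omega
    have e1 : α / β - 1 = (α - β) / β := by field_simp
    have e2 : β ^ (rk c - 1) = β ^ i * β ^ (rk c - 1 - i) := by
      rw [← pow_add]; congr 1; omega
    rw [e1, e2, div_pow]
    field_simp
  have h5 : ∑ j ∈ Finset.range ((rk c - 1) / 2 + 1),
        (γ j : ℝ) * ((α * β) ^ j * (α + β) ^ (rk c - 1 - 2 * j))
      = β ^ (rk c - 1) * ∑ j ∈ Finset.range ((rk c - 1) / 2 + 1),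
        (γ j : ℝ) * (α / β) ^ j * (1 + α / β) ^ (rk c - 1 - 2 * j) := by
    rw [Finset.mul_sum]
    apply Finset.sum_congr rfl
    intro j hj
    have hj' : 2 * j ≤ rk c - 1 := by
      have := Finset.mem_range.1 hj; omega
    have e1 : 1 + α / β = (α + β) / β := by field_simp; ring
    have e2 : β ^ (rk c - 1) = β ^ j * β ^ j * β ^ (rk c - 1 - 2 * j) := by
      rw [← pow_add, ← pow_add]; congr 1; omega
    rw [e1, e2, div_pow, div_pow, mul_pow]
    field_simp
  rw [h4, h5]
  simp only [h1]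

open Classical in
theorem binom (hle : ∀ a b : L, a ≤ b → rk a ≤ rk b)
    (hcount : ∀ a b : L, a ≤ b → 1 ≤ rk a → ∀ i : ℕ,
      Nat.card {c : L // a ≤ c ∧ c ≤ b ∧ rk c = rk a + i} = (rk b - rk a).choose i)
    (a b : L) (hab : a ≤ b) (ha : 1 ≤ rk a) (y β : ℝ) :
    ∑ c ∈ Finset.univ.filter (fun c : L => a ≤ c ∧ c ≤ b),
      y ^ (rk b - rk c) * β ^ (rk c - rk a) = (β + y) ^ (rk b - rk a) := by
  rw [add_pow, ← Finset.sum_fiberwise_of_maps_to
    (s := Finset.univ.filter (fun c : L => a ≤ c ∧ c ≤ b))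
    (t := Finset.range (rk b - rk a + 1)) (g := fun c => rk c - rk a)]
  · apply Finset.sum_congr rfl
    intro i hi
    have hi' : i ≤ rk b - rk a := by
      have := Finset.mem_range.1 hi; omega
    have hr := hle a b hab
    rw [Finset.sum_congr rfl (g := fun _ => y ^ (rk b - rk a - i) * β ^ i)
      (fun c hc => by
        simp only [Finset.mem_filter, Finset.mem_univ, true_and] at hc
        have h1 := hle _ _ hc.1.1
        have h2 := hle _ _ hc.1.2
        have e1 : rk b - rk c = rk b - rk a - i := by omega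
        rw [e1, hc.2]), Finset.sum_const, nsmul_eq_mul]
    have hcard : ((Finset.univ.filter (fun c : L => a ≤ c ∧ c ≤ b)).filter
        (fun c => rk c - rk a = i)).card = (rk b - rk a).choose i := by
      rw [← hcount a b hab ha i, Nat.card_eq_fintype_card, Fintype.card_subtype]
      congr 1
      ext c
      simp only [Finset.mem_filter, Finset.mem_univ, true_and]
      constructor
      · rintro ⟨⟨h1, h2⟩, h3⟩
        have := hle _ _ h1
        exact ⟨h1, h2, by omega⟩
      · rintro ⟨h1, h2, h3⟩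
        exact ⟨⟨h1, h2⟩, by omega⟩
    rw [hcard]
    ring
  · intro c hc
    simp only [Finset.mem_filter, Finset.mem_univ, true_and] at hc
    have h1 := hle _ _ hc.1
    have h2 := hle _ _ hc.2
    rw [Finset.mem_range]
    omega

open Classical in
theorem double (hle : ∀ a b : L, a ≤ b → rk a ≤ rk b)
    (hcount : ∀ a b : L, a ≤ b → 1 ≤ rk a → ∀ i : ℕ,
      Nat.card {c : L // a ≤ c ∧ c ≤ b ∧ rk c = rk a + i} = (rk b - rk a).choose i)
    (b : L) (y z β : ℝ) :
    ∑ c ∈ Finset.univ.filter (fun c : L => 1 ≤ rk c ∧ c ≤ b),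
      y ^ (rk b - rk c) * ∑ a ∈ Finset.univ.filter (fun a : L => 1 ≤ rk a ∧ a ≤ c),
        z ^ (rk a - 1) * β ^ (rk c - rk a)
    = ∑ a ∈ Finset.univ.filter (fun a : L => 1 ≤ rk a ∧ a ≤ b),
        z ^ (rk a - 1) * (β + y) ^ (rk b - rk a) := by
  have h1 : ∀ c : L, y ^ (rk b - rk c) * ∑ a ∈ Finset.univ.filter (fun a : L => 1 ≤ rk a ∧ a ≤ c),
        z ^ (rk a - 1) * β ^ (rk c - rk a)
      = ∑ a ∈ Finset.univ.filter (fun a : L => 1 ≤ rk a ∧ a ≤ c),
        z ^ (rk a - 1) * (y ^ (rk b - rk c) * β ^ (rk c - rk a)) := by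
    intro c
    rw [Finset.mul_sum]
    apply Finset.sum_congr rfl
    intro a _
    ring
  simp only [h1]
  rw [Finset.sum_comm' (t' := Finset.univ.filter (fun a : L => 1 ≤ rk a ∧ a ≤ b))
    (s' := fun a => Finset.univ.filter (fun c : L => a ≤ c ∧ c ≤ b))]
  · apply Finset.sum_congr rfl
    intro a ha
    simp only [Finset.mem_filter, Finset.mem_univ, true_and] at ha
    rw [← Finset.mul_sum, binom hle hcount a b ha.2 ha.1]
  · intro c a
    simp only [Finset.mem_filter, Finset.mem_univ, true_and]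
    constructor
    · rintro ⟨⟨h1, h2⟩, h3, h4⟩
      exact ⟨⟨h4, h2⟩, h3, h4.trans h2⟩
    · rintro ⟨⟨h1, h2⟩, h3, h4⟩
      exact ⟨⟨h3.trans (hle _ _ h1), h2⟩, h3, h1⟩

end Pool.R142.TG.PD3

namespace Pool.R142.TG

open Polynomial

theorem stmD3 : StmD3 := by
  intro hD1 L _ _ _ rk hL γ hγ x hx b hb
  classical
  obtain ⟨hmono, hzero, hcount⟩ := hD1 L rk hL
  have hle : ∀ a b : L, a ≤ b → rk a ≤ rk b := by
    intro a b hab
    rcases hab.eq_or_lt with rfl | h
    · exact le_rfl
    · exact (hmono a b h).le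
  apply Polynomial.eq_of_infinite_eval_eq
  -- values `u = D + x / D`
  have hinf : Set.Infinite ((fun D : ℝ => D + x / D) '' Set.Ioi (1 + |x|)) := by
    apply Set.Infinite.image
    · intro D hD D' hD' h
      simp only [Set.mem_Ioi] at hD hD'
      have hx0 : 0 ≤ |x| := abs_nonneg x
      have h0 : 0 < D := by linarith
      have h0' : 0 < D' := by linarith
      simp only at h
      field_simp at h
      have h2 : (D - D') * (D * D' - x) = 0 := by linear_combination h
      rcases mul_eq_zero.1 h2 with h3 | h3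
      · linarith
      · exfalso
        have : x ≤ |x| := le_abs_self x
        nlinarith
    · exact Set.Ioi_infinite _
  refine hinf.mono ?_
  rintro u ⟨D, hD, rfl⟩
  simp only [Set.mem_Ioi] at hD
  have hx0 : 0 ≤ |x| := abs_nonneg x
  have hxa : x ≤ |x| := le_abs_self x
  have hD0 : 0 < D := by linarith
  have hβ : 1 - x / D ≠ 0 := by
    have : x / D < 1 := by rw [div_lt_one hD0]; linarith
    intro h; linarith
  have hβ' : x - x / D ≠ 0 := by
    intro h
    have h1 : x * (1 - 1 / D) = 0 := by rw [← h]; ring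
    rcases mul_eq_zero.1 h1 with h2 | h2
    · exact hx h2
    · have : 1 / D < 1 := by rw [div_lt_one hD0]; linarith
      linarith
  have e1 : (1 - D) * (1 - x / D) = 1 + x - (D + x / D) := by field_simp; ring
  have e2 : (1 - D) + (1 - x / D) = 2 - (D + x / D) := by ring
  have e3 : (x - D) * (x - x / D) = x * (1 + x - (D + x / D)) := by field_simp; ring
  have e4 : (x - D) + (x - x / D) = 2 * x - (D + x / D) := by ring
  have hdc := PD3.double (rk := rk) hle hcount b (x - 1) ((1 - D) - (1 - x / D)) (1 - x / D)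
  have hb2 := PD3.hom (rk := rk) hle b hb (hγ b hb) (x - D) (x - x / D) hβ'
  rw [e3, e4] at hb2
  have e5 : (x - D) - (x - x / D) = (1 - D) - (1 - x / D) := by ring
  have e6 : (1 - x / D) + (x - 1) = x - x / D := by ring
  rw [e5, ← e6] at hb2
  rw [← hdc] at hb2
  have e2' : eval (D + x / D) (2 : ℝ[X]) = 2 := by
    have : (2 : ℝ[X]) = Polynomial.C 2 := (map_ofNat (Polynomial.C (R := ℝ)) 2).symm
    rw [this, eval_C]
  simp only [Set.mem_ofPred_eq, eval_finsetSum, eval_mul, eval_pow, eval_sub, eval_C, eval_X, e2']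
  rw [← hb2]
  apply Finset.sum_congr rfl
  intro c hc
  simp only [Finset.mem_filter, Finset.mem_univ, true_and] at hc
  have h7 := PD3.hom (rk := rk) hle c hc.1 (hγ c hc.1) (1 - D) (1 - x / D) hβ
  rw [e1, e2] at h7
  rw [h7]

end Pool.R142.TG
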