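import Pool.Agent.R142.TG.Stm

/-! Piece D4 for MP_41b5b1_co (helper606): the toric `g`-polynomial in terms of the
`γ`-vector. -/

namespace Pool.R142.TG

namespace D4

open Polynomial

/-- the claimed value of the toric `g`-polynomial -/
noncomputable def A {L : Type} (rk : L → ℕ) (γ : L → ℕ → ℤ) (b : L) : ℤ[X] :=
  ∑ j ∈ Finset.range ((rk b - 1) / 2 + 1),
        Polynomial.C (γ b j) * (G j (rk b - 1 - 2 * j)).map (Nat.castRingHom ℤ)

theorem natDegree_A {L : Type} (rk : L → ℕ) (γ : L → ℕ → ℤ) (b : L)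
    (hC : ∀ j r : ℕ, 2 * (G j r).natDegree ≤ 2 * j + r) :
    (A rk γ b).natDegree ≤ (rk b - 1) / 2 := by
  unfold A
  refine natDegree_sum_le_of_forall_le _ _ (fun j hj => ?_)
  refine (natDegree_C_mul_le _ _).trans (natDegree_map_le.trans ?_)
  have := hC j (rk b - 1 - 2 * j)
  rw [Finset.mem_range] at hj
  omega

theorem eval_A {L : Type} (rk : L → ℕ) (γ : L → ℕ → ℤ) (b : L) (x : ℝ) :
    ((A rk γ b).map (Int.castRingHom ℝ)).eval x =
      ∑ j ∈ Finset.range ((rk b - 1) / 2 + 1), ((γ b j : ℤ) : ℝ) *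
        ((G j (rk b - 1 - 2 * j)).map (Nat.castRingHom ℝ)).eval x := by
  have hcomp : (Int.castRingHom ℝ).comp (Nat.castRingHom ℤ) = Nat.castRingHom ℝ :=
    Subsingleton.elim _ _
  unfold A
  rw [Polynomial.map_sum, eval_finsetSum]
  refine Finset.sum_congr rfl (fun j _ => ?_)
  rw [Polynomial.map_mul, eval_mul, Polynomial.map_C, eval_C, Polynomial.map_map, hcomp]
  simp

theorem eval_reflect (N : ℕ) (p : ℝ[X]) (hp : p.natDegree ≤ N) (x : ℝ) (hx : x ≠ 0) :
    (reflect N p).eval x = x ^ N * p.eval x⁻¹ := by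
  have : Invertible (x⁻¹) := invertibleOfNonzero (inv_ne_zero hx)
  have h := eval₂_reflect_mul_pow (RingHom.id ℝ) (x⁻¹) N p hp
  rw [invOf_eq_inv, inv_inv] at h
  rw [eval₂_id, eval₂_id] at h
  rw [← h, inv_pow]
  have hx' : x ^ N ≠ 0 := pow_ne_zero _ hx
  field_simp

section
open Classical in
theorem key {L : Type} [PartialOrder L] [BoundedOrder L] [Fintype L] (rk : L → ℕ)
    (hL : IsSimpleEulerian L rk) (hC : StmC) (hD1 : StmD1) (hD3 : StmD3)
    (γ : L → ℕ → ℤ) (hγ : ∀ c : L, 1 ≤ rk c → IsGamma rk c (γ c)) (x : ℝ) (hx : x ≠ 0)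
    (b : L) (hb : 1 ≤ rk b) (hg : γ b 0 = 1) :
    ∑ c ∈ Finset.univ.filter (fun c : L => 1 ≤ rk c ∧ c ≤ b),
        (x - 1) ^ (rk b - rk c) * ((A rk γ c).map (Int.castRingHom ℝ)).eval x =
      x ^ (rk b) * ((A rk γ b).map (Int.castRingHom ℝ)).eval x⁻¹ - (x - 1) ^ (rk b) := by
  obtain ⟨Φ, h1, h2⟩ := hC.2 x hx
  have h := congrArg Φ (hD3 hD1 L rk hL γ hγ x hx b hb)
  simp only [← Polynomial.smul_eq_C_mul, map_sum, map_smul, smul_eq_mul] at h
  simp only [Polynomial.smul_eq_C_mul] at h
  simp only [eval_A]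
  have e1 : ∀ c : L, ∑ j ∈ Finset.range ((rk c - 1) / 2 + 1), ((γ c j : ℤ) : ℝ) *
        Φ ((Polynomial.C (1 + x) - X) ^ j * (2 - X) ^ (rk c - 1 - 2 * j)) =
      ∑ j ∈ Finset.range ((rk c - 1) / 2 + 1), ((γ c j : ℤ) : ℝ) *
        ((G j (rk c - 1 - 2 * j)).map (Nat.castRingHom ℝ)).eval x := by
    intro c
    refine Finset.sum_congr rfl (fun j _ => ?_)
    rw [h1]
  simp only [e1] at h
  rw [h]
  have e2 : ∀ j ∈ Finset.range ((rk b - 1) / 2 + 1), ((γ b j : ℤ) : ℝ) *
        Φ ((Polynomial.C x * (Polynomial.C (1 + x) - X)) ^ j *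
          (Polynomial.C (2 * x) - X) ^ (rk b - 1 - 2 * j)) =
      x ^ (rk b) * (((γ b j : ℤ) : ℝ) *
        ((G j (rk b - 1 - 2 * j)).map (Nat.castRingHom ℝ)).eval x⁻¹) -
      (if j = 0 then (x - 1) ^ (rk b) else 0) := by
    intro j hj
    rw [Finset.mem_range] at hj
    have h3 := h2 j (rk b - 1 - 2 * j)
    have h4 : 2 * j + (rk b - 1 - 2 * j) + 1 = rk b := by omega
    rw [h4] at h3
    have h5 : Φ ((Polynomial.C x * (Polynomial.C (1 + x) - X)) ^ j *
          (Polynomial.C (2 * x) - X) ^ (rk b - 1 - 2 * j)) =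
        x ^ (rk b) * ((G j (rk b - 1 - 2 * j)).map (Nat.castRingHom ℝ)).eval x⁻¹ -
          (if j = 0 then (x - 1) ^ (rk b - 1 - 2 * j + 1) else 0) := by
      rw [h3]; ring
    rw [h5]
    by_cases hj0 : j = 0
    · subst hj0
      rw [if_pos rfl, if_pos rfl, hg]
      have h6 : rk b - 1 - 2 * 0 + 1 = rk b := by omega
      rw [h6]
      push_cast
      ring
    · rw [if_neg hj0, if_neg hj0]
      ring
  rw [Finset.sum_congr rfl e2, Finset.sum_sub_distrib, ← Finset.mul_sum]
  congr 1
  rw [Finset.sum_ite_eq' (Finset.range ((rk b - 1) / 2 + 1)) 0 (fun _ => (x - 1) ^ (rk b)),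
    if_pos (by simp)]
end

theorem gamma_zero {L : Type} [PartialOrder L] [Fintype L] (rk : L → ℕ)
    (hmono : ∀ a b : L, a < b → rk a < rk b) (b : L) (hb : 1 ≤ rk b) (g : ℕ → ℤ)
    (hg : IsGamma rk b g) : g 0 = 1 := by
  classical
  have h := congrArg (fun p : ℤ[X] => p.coeff (rk b - 1)) hg
  simp only [finsetSum_coeff] at h
  have hmon : (X - 1 : ℤ[X]).Monic := by
    have := monic_X_sub_C (1 : ℤ)
    rwa [map_one] at this
  have hdeg1 : (X - 1 : ℤ[X]).natDegree = 1 := by
    have := natDegree_X_sub_C (1 : ℤ)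
    rwa [map_one] at this
  have hdeg : ∀ i : ℕ, ((X - 1 : ℤ[X]) ^ i).natDegree = i := by
    intro i
    rw [hmon.natDegree_pow, hdeg1, mul_one]
  rw [Finset.sum_eq_single (rk b - 1)] at h
  rotate_left
  · intro i hi hne
    rw [Finset.mem_range] at hi
    rw [coeff_C_mul, coeff_eq_zero_of_natDegree_lt, mul_zero]
    rw [hdeg]
    omega
  · intro hni
    exact absurd (Finset.mem_range.mpr (by omega)) hni
  rw [Finset.sum_eq_single 0] at h
  rotate_left
  · intro j hj hne
    rw [Finset.mem_range] at hj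
    rw [mul_assoc, coeff_C_mul, mul_comm (X ^ j), coeff_mul_X_pow', if_pos (by omega),
      coeff_one_add_X_pow, Nat.choose_eq_zero_of_lt (by omega)]
    simp
  · intro hni
    exact absurd (Finset.mem_range.mpr (by omega)) hni
  have hf : fnum rk b (rk b - 1) = 1 := by
    unfold fnum
    rw [Finset.card_eq_one]
    refine ⟨b, ?_⟩
    ext a
    simp only [Finset.mem_filter, Finset.mem_univ, true_and, Finset.mem_singleton]
    constructor
    · rintro ⟨hab, hrk⟩
      by_contra hne
      have := hmono a b (lt_of_le_of_ne hab hne)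
      omega
    · rintro rfl
      exact ⟨le_rfl, by omega⟩
  rw [hf, coeff_C_mul] at h
  have hlc : ((X - 1 : ℤ[X]) ^ (rk b - 1)).coeff (rk b - 1) = 1 := by
    have h3 := (hmon.pow (rk b - 1)).coeff_natDegree
    rwa [hdeg] at h3
  rw [hlc] at h
  have hr : (Polynomial.C (g 0) * X ^ 0 * (1 + X) ^ (rk b - 1 - 2 * 0) : ℤ[X]).coeff
      (rk b - 1) = g 0 := by
    rw [pow_zero, mul_one, coeff_C_mul, mul_zero, Nat.sub_zero, coeff_one_add_X_pow,
      Nat.choose_self]
    simp
  rw [hr] at h
  simpa using h.symm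

open Classical in
theorem toricG_eq' {L : Type} [PartialOrder L] [Fintype L] (rk : L → ℕ) (b : L) :
    toricG rk b = if rk b = 0 then 1 else
      trunc ((rk b - 1) / 2)
        ((1 - X) * ∑ a : {a : L // a < b},
          toricG rk a.1 * (X - 1) ^ (rk b - 1 - rk a.1)) := by
  rw [toricG, WellFounded.fix_eq]

open Classical in
theorem toricG_eq {L : Type} [PartialOrder L] [Fintype L] (rk : L → ℕ) (b : L) :
    toricG rk b = if rk b = 0 then 1 else
      trunc ((rk b - 1) / 2)
        ((1 - X) * ∑ a ∈ Finset.univ.filter (fun a : L => a < b),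
          toricG rk a * (X - 1) ^ (rk b - 1 - rk a)) := by
  rw [toricG_eq', Finset.sum_subtype (p := fun a : L => a < b)
    (Finset.univ.filter (fun a : L => a < b)) (fun a => by simp)]

theorem trunc_sub_reflect (N : ℕ) (p : ℤ[X]) (hN : 1 ≤ N) (hp : p.natDegree ≤ (N - 1) / 2) :
    trunc ((N - 1) / 2) (p - reflect N p) = p := by
  unfold trunc
  have h1 : ∀ i ∈ Finset.range ((N - 1) / 2 + 1),
      Polynomial.C ((p - reflect N p).coeff i) * (X : ℤ[X]) ^ i =
        Polynomial.C (p.coeff i) * X ^ i := by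
    intro i hi
    rw [Finset.mem_range] at hi
    rw [coeff_sub, coeff_reflect, revAt_le (by omega),
      coeff_eq_zero_of_natDegree_lt (p := p) (n := N - i) (by omega), sub_zero]
  rw [Finset.sum_congr rfl h1]
  exact (p.as_sum_range_C_mul_X_pow' (Nat.lt_succ_of_le hp)).symm

end D4

open Polynomial D4

theorem stmD4 : StmD4 := by
  classical
  intro hC hD1 hD3 L _ _ _ rk hL γ hγ
  obtain ⟨hmono, hzero, -⟩ := hD1 L rk hL
  have hg0 : ∀ b : L, 1 ≤ rk b → γ b 0 = 1 := fun b hb =>
    gamma_zero rk hmono b hb (γ b) (hγ b hb)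
  have main : ∀ n : ℕ, ∀ b : L, rk b = n → 1 ≤ rk b → toricG rk b = A rk γ b := by
    intro n
    induction n using Nat.strong_induction_on with
    | _ n ih =>
      intro b hbn hb
      have hb0 : rk b ≠ 0 := by omega
      rw [toricG_eq, if_neg hb0]
      have hbot : (⊥ : L) < b := by
        refine bot_lt_iff_ne_bot.mpr ?_
        rintro rfl
        exact hb0 hL.rk_bot
      have hG0 : toricG rk (⊥ : L) = 1 := by
        rw [toricG_eq, if_pos hL.rk_bot]
      have hpoly : (1 - X) * ∑ a ∈ Finset.univ.filter (fun a : L => a < b),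
          toricG rk a * (X - 1) ^ (rk b - 1 - rk a) = A rk γ b - reflect (rk b) (A rk γ b) := by
        apply Polynomial.map_injective (Int.castRingHom ℝ) Int.cast_injective
        refine eq_of_infinite_eval_eq _ _ ?_
        refine Set.Infinite.mono (s := {x : ℝ | x ≠ 0}) ?_ ?_
        swap
        · exact (Set.finite_singleton (0 : ℝ)).infinite_compl
        intro x hx
        rw [Set.mem_ofPred_eq] at hx
        rw [Set.mem_ofPred_eq]
        have hk := key rk hL hC hD1 hD3 γ hγ x hx b hb (hg0 b hb)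
        have hdA : ((A rk γ b).map (Int.castRingHom ℝ)).natDegree ≤ rk b :=
          natDegree_map_le.trans ((natDegree_A rk γ b hC.1).trans (by omega))
        rw [Polynomial.map_sub, ← reflect_map, eval_sub, eval_reflect _ _ hdA x hx]
        rw [Polynomial.map_mul, Polynomial.map_sum, eval_mul, eval_finsetSum]
        have hs1 : Finset.univ.filter (fun a : L => a < b) =
            insert ⊥ (Finset.univ.filter (fun a : L => 1 ≤ rk a ∧ a < b)) := by
          ext a
          simp only [Finset.mem_filter, Finset.mem_univ, true_and, Finset.mem_insert]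
          constructor
          · intro ha
            by_cases h0 : rk a = 0
            · exact Or.inl (hzero a h0)
            · exact Or.inr ⟨by omega, ha⟩
          · rintro (rfl | ⟨_, ha⟩)
            · exact hbot
            · exact ha
        have hs2 : Finset.univ.filter (fun a : L => 1 ≤ rk a ∧ a ≤ b) =
            insert b (Finset.univ.filter (fun a : L => 1 ≤ rk a ∧ a < b)) := by
          ext a
          simp only [Finset.mem_filter, Finset.mem_univ, true_and, Finset.mem_insert]
          constructor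
          · rintro ⟨h1, h2⟩
            rcases h2.eq_or_lt with h3 | h3
            · exact Or.inl h3
            · exact Or.inr ⟨h1, h3⟩
          · rintro (rfl | ⟨h1, ha⟩)
            · exact ⟨hb, le_rfl⟩
            · exact ⟨h1, ha.le⟩
        rw [hs2, Finset.sum_insert (by simp), Nat.sub_self, pow_zero, one_mul] at hk
        rw [hs1, Finset.sum_insert (by simp [hL.rk_bot]), hG0, hL.rk_bot]
        have hterm : ∀ a ∈ Finset.univ.filter (fun a : L => 1 ≤ rk a ∧ a < b),
            (1 - x) * ((toricG rk a * (X - 1) ^ (rk b - 1 - rk a)).map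
              (Int.castRingHom ℝ)).eval x =
            -((x - 1) ^ (rk b - rk a) * ((A rk γ a).map (Int.castRingHom ℝ)).eval x) := by
          intro a ha
          simp only [Finset.mem_filter, Finset.mem_univ, true_and] at ha
          have hlt := hmono a b ha.2
          rw [ih (rk a) (by omega) a rfl ha.1]
          have he : rk b - rk a = (rk b - 1 - rk a) + 1 := by omega
          rw [he, pow_succ, Polynomial.map_mul, eval_mul]
          have h7 : (((X - 1 : ℤ[X]) ^ (rk b - 1 - rk a)).map (Int.castRingHom ℝ)).eval x =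
              (x - 1) ^ (rk b - 1 - rk a) := by
            simp
          rw [h7]
          ring
        have h8 : (((1 : ℤ[X]) - X).map (Int.castRingHom ℝ)).eval x = 1 - x := by
          simp
        have h9 : (((1 : ℤ[X]) * (X - 1) ^ (rk b - 1 - 0)).map (Int.castRingHom ℝ)).eval x =
            (x - 1) ^ (rk b - 1) := by
          simp
        rw [h8, h9, mul_add, Finset.mul_sum, Finset.sum_congr rfl hterm,
          Finset.sum_neg_distrib]
        have h10 : (x - 1) ^ (rk b) = (x - 1) ^ (rk b - 1) * (x - 1) := by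
          rw [← pow_succ]
          congr 1
          omega
        rw [h10] at hk
        linarith
      rw [hpoly, trunc_sub_reflect (rk b) _ hb (natDegree_A rk γ b hC.1)]
  intro b hb
  exact main (rk b) b rfl hb

end Pool.R142.TG
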