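import Pool.Agent.R142.TG.Defs

/-! Statements of the pieces for MP_41b5b1_co. -/

namespace Pool.R142.TG

open Polynomial

/-- Piece A (Kruskal-Katona closure): closure of f-vectors under joins and cones. -/
def StmA : Prop :=
  IsFVector (fun k => (1 : ℕ[X]).coeff k) ∧
  (∀ p q : ℕ[X], IsFVector p.coeff → IsFVector q.coeff → IsFVector (p * q).coeff) ∧
  (∀ p q : ℕ[X], IsFVector p.coeff → IsFVector q.coeff → CLe q p → IsFVector (p + X * q).coeff)

/-- Piece B (uses only the closure properties): the final vectors are f-vectors. -/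
def StmB : Prop :=
  StmA → ∀ (d : ℕ) (γ : ℕ → ℕ),
    IsFVector (C d + ∑ j ∈ Finset.range (d / 2), (γ (j + 1)) • (X * R j (d - 2 * (j + 1)))).coeff

/-- Piece C (operator identity). -/
def StmC : Prop :=
  (∀ j r : ℕ, 2 * (G j r).natDegree ≤ 2 * j + r) ∧
  ∀ x : ℝ, x ≠ 0 → ∃ Φ : ℝ[X] →ₗ[ℝ] ℝ,
    (∀ j r : ℕ, Φ ((Polynomial.C (1 + x) - X) ^ j * (2 - X) ^ r) =
      ((G j r).map (Nat.castRingHom ℝ)).eval x) ∧
    (∀ j r : ℕ, x ^ (2 * j + r + 1) * ((G j r).map (Nat.castRingHom ℝ)).eval x⁻¹ =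
      Φ ((Polynomial.C x * (Polynomial.C (1 + x) - X)) ^ j * (Polynomial.C (2 * x) - X) ^ r) +
        (if j = 0 then (x - 1) ^ (r + 1) else 0))

/-- Piece D1 (poset combinatorics): in a simple Eulerian poset, for `a ≤ b` and `rk a ≥ 1`,
the number of `c` with `a ≤ c ≤ b` and `rk c = rk a + i` is `choose (rk b - rk a) i`;
and `rk` is strictly monotone, and only `⊥` has rank 0. -/
def StmD1 : Prop :=
  ∀ (L : Type) [PartialOrder L] [BoundedOrder L] [Fintype L] (rk : L → ℕ),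
    IsSimpleEulerian L rk →
    (∀ a b : L, a < b → rk a < rk b) ∧
    (∀ a : L, rk a = 0 → a = ⊥) ∧
    (∀ a b : L, a ≤ b → 1 ≤ rk a → ∀ i : ℕ,
      Nat.card {c : L // a ≤ c ∧ c ≤ b ∧ rk c = rk a + i} = (rk b - rk a).choose i)

/-- Piece D2: every element of rank at least one has a `γ`-vector (Dehn-Sommerville). -/
def StmD2 : Prop :=
  StmD1 → ∀ (L : Type) [PartialOrder L] [BoundedOrder L] [Fintype L] (rk : L → ℕ),
    IsSimpleEulerian L rk → ∀ b : L, 1 ≤ rk b → ∃ γ : ℕ → ℤ, IsGamma rk b γ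

open Classical in
/-- Piece D3: the face-sum identity.  If `γ c` is the `γ`-vector of `c` for every `c` of positive
rank, then for every `b` of rank `e + 1 ≥ 1` and every real `x ≠ 0`, as polynomials in `u = X`:
`∑_{⊥ < c ≤ b} (x-1)^(rk b - rk c) ∑_j γ_j(c) (1+x-u)^j (2-u)^(rk c - 1 - 2j)
  = ∑_j γ_j(b) (x (1+x-u))^j (2x-u)^(rk b - 1 - 2j)`. -/
def StmD3 : Prop :=
  StmD1 → ∀ (L : Type) [PartialOrder L] [BoundedOrder L] [Fintype L] (rk : L → ℕ),
    IsSimpleEulerian L rk → ∀ γ : L → ℕ → ℤ, (∀ c : L, 1 ≤ rk c → IsGamma rk c (γ c)) →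
    ∀ x : ℝ, x ≠ 0 → ∀ b : L, 1 ≤ rk b →
      ∑ c ∈ Finset.univ.filter (fun c : L => 1 ≤ rk c ∧ c ≤ b),
        Polynomial.C ((x - 1) ^ (rk b - rk c)) *
          ∑ j ∈ Finset.range ((rk c - 1) / 2 + 1), Polynomial.C ((γ c j : ℤ) : ℝ) *
            ((Polynomial.C (1 + x) - X) ^ j * (2 - X) ^ (rk c - 1 - 2 * j)) =
      ∑ j ∈ Finset.range ((rk b - 1) / 2 + 1), Polynomial.C ((γ b j : ℤ) : ℝ) *
        ((Polynomial.C x * (Polynomial.C (1 + x) - X)) ^ j *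
          (Polynomial.C (2 * x) - X) ^ (rk b - 1 - 2 * j))

/-- Piece D4 (assembly): the toric `g`-polynomial in terms of the `γ`-vector.
For `b` of positive rank with `γ`-vector `γ b`:
`g(b) = ∑_j γ_j(b) G j (rk b - 1 - 2j)`. -/
def StmD4 : Prop :=
  StmC → StmD1 → StmD3 → ∀ (L : Type) [PartialOrder L] [BoundedOrder L] [Fintype L] (rk : L → ℕ),
    IsSimpleEulerian L rk → ∀ γ : L → ℕ → ℤ, (∀ c : L, 1 ≤ rk c → IsGamma rk c (γ c)) →
    ∀ b : L, 1 ≤ rk b →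
      toricG rk b = ∑ j ∈ Finset.range ((rk b - 1) / 2 + 1),
        Polynomial.C (γ b j) * (G j (rk b - 1 - 2 * j)).map (Nat.castRingHom ℤ)

end Pool.R142.TG
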